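import Mathlib

/-!
# MP_669a53_lc : invariant types, coheirs, the map `F_M` (definitions)

A formula with parameters in `A` and variables `x_0, ..., x_(n-1)` is an `L`-formula whose free variables are indexed by
`A ⊕ Fin n`; the variable `inl c` stands for the parameter `c`.
-/

set_option autoImplicit false

namespace Pool.Agent.helper19.IT

open FirstOrder FirstOrder.Language Cardinal

universe u

/-- A complete type over `U` in `n` variables: a set of formulas with parameters in `U`, finitely satisfiable in `U` and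
containing each formula or its negation. -/
structure GType (L : FirstOrder.Language.{u, u}) (U : Type u) [L.Structure U] (n : ℕ) : Type u where
  carrier : Set (L.Formula (U ⊕ Fin n))
  finSat : ∀ s : Finset (L.Formula (U ⊕ Fin n)), (∀ φ ∈ s, φ ∈ carrier) →
    ∃ a : Fin n → U, ∀ φ ∈ s, φ.Realize (Sum.elim id a)
  total : ∀ φ : L.Formula (U ⊕ Fin n), φ ∈ carrier ∨ φ.not ∈ carrier

/-- The two tuples have the same type over `A`. -/
def SameType (L : FirstOrder.Language.{u, u}) {U : Type u} [L.Structure U] (A : Set U) {m : ℕ} (b b' : Fin m → U) :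
    Prop :=
  ∀ ψ : L.Formula (A ⊕ Fin m), ψ.Realize (Sum.elim (fun c : A => (c : U)) b) ↔
    ψ.Realize (Sum.elim (fun c : A => (c : U)) b')

/-- The formula `φ(b; x)`. -/
def inst {L : FirstOrder.Language.{u, u}} {U : Type u} {m n : ℕ} (φ : L.Formula (Fin m ⊕ Fin n)) (b : Fin m → U) :
    L.Formula (U ⊕ Fin n) :=
  φ.relabel (Sum.map b id)

/-- The formula `ψ` with parameters in `A`, seen as a formula with parameters in `U`. -/
def lift {L : FirstOrder.Language.{u, u}} {U : Type u} {A : Set U} {n : ℕ} (ψ : L.Formula (A ⊕ Fin n)) :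
    L.Formula (U ⊕ Fin n) :=
  ψ.relabel (Sum.map (fun c : A => (c : U)) id)

section

variable {L : FirstOrder.Language.{u, u}} {U : Type u} [L.Structure U] {n : ℕ}

/-- The type `p` is invariant over `A`: whether `φ(b; x) ∈ p` depends only on `tp(b/A)`. -/
def GType.Invariant (p : GType L U n) (A : Set U) : Prop :=
  ∀ (m : ℕ) (φ : L.Formula (Fin m ⊕ Fin n)) (b b' : Fin m → U), SameType L A b b' →
    (inst φ b ∈ p.carrier ↔ inst φ b' ∈ p.carrier)

/-- The restriction `p|A`. -/
def GType.restrict (p : GType L U n) (A : Set U) : Set (L.Formula (A ⊕ Fin n)) :=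
  {ψ | lift ψ ∈ p.carrier}

/-- The type `p` is finitely satisfiable in `A`. -/
def GType.FinSatIn (p : GType L U n) (A : Set U) : Prop :=
  ∀ ψ ∈ p.carrier, ∃ a : Fin n → U, (∀ i, a i ∈ A) ∧ ψ.Realize (Sum.elim id a)

/-- The `φ`-type of `p`: the set of all `b` with `φ(b; x) ∈ p`. -/
def GType.trace (p : GType L U n) {m : ℕ} (φ : L.Formula (Fin m ⊕ Fin n)) : Set (Fin m → U) :=
  {b | inst φ b ∈ p.carrier}

end

/-- `V` is `κ`-saturated: for every `A` of size less than `κ`, every set of formulas with parameters in `A` in finitely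
many variables which is finitely satisfiable in `V` is realised in `V`. -/
def Saturated (L : FirstOrder.Language.{u, u}) (V : Type u) [L.Structure V] (κ : Cardinal.{u}) : Prop :=
  ∀ A : Set V, Cardinal.mk A < κ → ∀ (n : ℕ) (Γ : Set (L.Formula (A ⊕ Fin n))),
    (∀ s : Finset (L.Formula (A ⊕ Fin n)), (∀ φ ∈ s, φ ∈ Γ) →
      ∃ a : Fin n → V, ∀ φ ∈ s, φ.Realize (Sum.elim (fun c : A => (c : V)) a)) →
    ∃ a : Fin n → V, ∀ φ ∈ Γ, φ.Realize (Sum.elim (fun c : A => (c : V)) a)

/-- `U` has NIP (a property of its complete theory): every formula `φ(y; x)` has finite VC dimension. -/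
def NIP (L : FirstOrder.Language.{u, u}) (U : Type u) [L.Structure U] : Prop :=
  ∀ (m n : ℕ) (φ : L.Formula (Fin m ⊕ Fin n)), ∃ k : ℕ, ¬ ∃ a : Fin k → Fin n → U, ∀ s : Set (Fin k),
    ∃ b : Fin m → U, ∀ i : Fin k, φ.Realize (Sum.elim b (a i)) ↔ i ∈ s

/-- `U` is binary (a property of its complete theory): every formula is a Boolean combination of formulas with at most
two free variables. In semantic form: for every formula `φ(x_0, ..., x_(n-1))` there is a finite set of formulas
`χ(x_i, x_j)` whose truth values decide the truth value of `φ`. -/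
def Binary (L : FirstOrder.Language.{u, u}) (U : Type u) [L.Structure U] : Prop :=
  ∀ (n : ℕ) (φ : L.Formula (Fin n)), ∃ X : Finset (Fin n × Fin n × L.Formula (Fin 2)), ∀ a b : Fin n → U,
    (∀ t ∈ X, t.2.2.Realize ![a t.1, a t.2.1] ↔ t.2.2.Realize ![b t.1, b t.2.1]) → (φ.Realize a ↔ φ.Realize b)

/-! ### the map `F_M` -/

/-- the language with one unary predicate `P` -/
inductive PRel : ℕ → Type u
  | P : PRel 1

/-- The language with one unary predicate `P` and nothing else. -/
def LP : FirstOrder.Language.{u, u} := ⟨fun _ => PEmpty, PRel⟩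

/-- The pair `(V, P)` as a structure in the language `L_P`, the language `L` together with a unary predicate `P`. -/
def pairStr (L : FirstOrder.Language.{u, u}) (V : Type u) [L.Structure V] (P : Set V) : (L.sum LP.{u}).Structure V where
  funMap {n} f x := match f with
    | Sum.inl g => Structure.funMap g x
    | Sum.inr e => PEmpty.elim e
  RelMap {n} r := match n, r with
    | _, Sum.inl s => fun x => Structure.RelMap s x
    | _, Sum.inr PRel.P => fun x => x 0 ∈ P

/-- The auxiliary models in the definition of `F_M`, all elementary substructures of the monster model `U`: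
`M ≺⁺ M'`, that is `M'` is an `|M|⁺`-saturated elementary extension of `M`, and `(N', N)` is an `|M'|⁺`-saturated
elementary extension of the pair `(M', M)` in the language `L_P`. -/
structure Aux (L : FirstOrder.Language.{u, u}) (U : Type u) [L.Structure U] (M M' N' N : L.ElementarySubstructure U) :
    Prop where
  le : M ≤ M'
  le' : M' ≤ N'
  leN : N ≤ N'
  MN : M ≤ N
  sat : Saturated L M' (Order.succ (Cardinal.mk M))
  elem : ∀ (n : ℕ) (φ : (L.sum LP.{u}).Formula (Fin n)) (a : Fin n → M'),
    (@Formula.Realize (L.sum LP.{u}) M' (pairStr L M' {x | (x : U) ∈ M}) (Fin n) φ a ↔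
      @Formula.Realize (L.sum LP.{u}) N' (pairStr L N' {x | (x : U) ∈ N}) (Fin n) φ
        (fun i => ⟨(a i : U), le' (a i).2⟩))
  satN : @Saturated (L.sum LP.{u}) N' (pairStr L N' {x | (x : U) ∈ N}) (Order.succ (Cardinal.mk M'))

/-- `F_M(p) = q`, computed with the auxiliary models `M'`, `N'`, `N`: `q` is finitely satisfiable in `M`, and every
formula `φ(b; x) ∈ q` with `b` in `M'` follows from `p|N ∪ {P(x)}`, that is there is `θ(c; x) ∈ p`, `c` in `N`, such that
`θ(c; a)` implies `φ(b; a)` for all tuples `a` of `N`. -/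
def FEq {L : FirstOrder.Language.{u, u}} {U : Type u} [L.Structure U] (M M' N : L.ElementarySubstructure U) {n : ℕ}
    (p q : GType L U n) : Prop :=
  q.FinSatIn (M : Set U) ∧ ∀ φ : L.Formula ((M' : Set U) ⊕ Fin n), φ ∈ q.restrict (M' : Set U) →
    ∃ θ ∈ p.restrict (N : Set U), ∀ a : Fin n → U, (∀ i, a i ∈ N) → (lift θ).Realize (Sum.elim id a) →
      (lift φ).Realize (Sum.elim id a)

/-- The fibre `F_M⁻¹(q)`: all `M`-invariant types `p` with `F_M(p) = q`. -/
def Fiber {L : FirstOrder.Language.{u, u}} {U : Type u} [L.Structure U] (M M' N : L.ElementarySubstructure U) {n : ℕ}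
    (q : GType L U n) : Set (GType L U n) :=
  {p | p.Invariant (M : Set U) ∧ FEq M M' N p q}

end Pool.Agent.helper19.IT
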