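import Mathlib
import Pool.Agent.helper19.IT.Defs

/-!
# MP_669a53_lc : basic facts on complete types
-/

set_option autoImplicit false

namespace Pool.Agent.helper19.IT

open FirstOrder FirstOrder.Language Cardinal

universe u

section
variable {L : FirstOrder.Language.{u, u}} {U : Type u} [L.Structure U] {n : ℕ}

theorem realize_inst {m : ℕ} (φ : L.Formula (Fin m ⊕ Fin n)) (b : Fin m → U) (a : Fin n → U) :
    (inst φ b).Realize (Sum.elim id a) ↔ φ.Realize (Sum.elim b a) := by
  rw [inst, Formula.realize_relabel]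
  have : (Sum.elim id a ∘ Sum.map b id : Fin m ⊕ Fin n → U) = Sum.elim b a := by
    funext x; cases x <;> rfl
  rw [this]

theorem realize_lift {A : Set U} (ψ : L.Formula (A ⊕ Fin n)) (a : Fin n → U) :
    (lift ψ).Realize (Sum.elim id a) ↔ ψ.Realize (Sum.elim (fun c : A => (c : U)) a) := by
  rw [lift, Formula.realize_relabel]
  have : (Sum.elim id a ∘ Sum.map (fun c : A => (c : U)) id : A ⊕ Fin n → U) =
      Sum.elim (fun c : A => (c : U)) a := by
    funext x; cases x <;> rfl
  rw [this]

theorem GType.ext' {p q : GType L U n} (h : p.carrier = q.carrier) : p = q := by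
  cases p; cases q; simp only at h; subst h; rfl

theorem GType.mem_of_imp (p : GType L U n) (s : Finset (L.Formula (U ⊕ Fin n))) (hs : ∀ φ ∈ s, φ ∈ p.carrier)
    (ψ : L.Formula (U ⊕ Fin n))
    (h : ∀ a : Fin n → U, (∀ φ ∈ s, φ.Realize (Sum.elim id a)) → ψ.Realize (Sum.elim id a)) :
    ψ ∈ p.carrier := by
  classical
  rcases p.total ψ with h1 | h1
  · exact h1
  · exfalso
    obtain ⟨a, ha⟩ := p.finSat (insert ψ.not s) (by
      intro φ hφ
      rcases Finset.mem_insert.1 hφ with rfl | h2
      · exact h1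
      · exact hs φ h2)
    have h3 := ha ψ.not (Finset.mem_insert_self _ _)
    rw [Formula.realize_not] at h3
    exact h3 (h a (fun φ hφ => ha φ (Finset.mem_insert_of_mem hφ)))

theorem GType.mem_congr (p : GType L U n) {φ ψ : L.Formula (U ⊕ Fin n)}
    (h : ∀ a : Fin n → U, φ.Realize (Sum.elim id a) ↔ ψ.Realize (Sum.elim id a)) :
    φ ∈ p.carrier ↔ ψ ∈ p.carrier := by
  constructor
  · intro h1
    exact p.mem_of_imp {φ} (by simpa using h1) ψ (fun a ha => (h a).1 (ha φ (by simp)))
  · intro h1
    exact p.mem_of_imp {ψ} (by simpa using h1) φ (fun a ha => (h a).2 (ha ψ (by simp)))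

theorem GType.not_mem_iff (p : GType L U n) {φ : L.Formula (U ⊕ Fin n)} : φ.not ∈ p.carrier ↔ φ ∉ p.carrier := by
  constructor
  · intro h1 h2
    classical
    obtain ⟨a, ha⟩ := p.finSat {φ.not, φ} (by
      intro ψ hψ
      simp only [Finset.mem_insert, Finset.mem_singleton] at hψ
      rcases hψ with rfl | rfl
      · exact h1
      · exact h2)
    have h3 := ha φ.not (by simp)
    rw [Formula.realize_not] at h3
    exact h3 (ha φ (by simp))
  · intro h
    exact (p.total φ).resolve_left h

/-- every formula with parameters is an instance of a formula without parameters -/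
theorem exists_inst (φ : L.Formula (U ⊕ Fin n)) : ∃ (m : ℕ) (φ0 : L.Formula (Fin m ⊕ Fin n)) (b : Fin m → U),
    ∀ a : Fin n → U, φ.Realize (Sum.elim id a) ↔ (inst φ0 b).Realize (Sum.elim id a) := by
  classical
  let B : Finset U := φ.freeVarFinset.preimage Sum.inl (Sum.inl_injective.injOn)
  let e := B.equivFin
  have hB : ∀ u : U, (Sum.inl u : U ⊕ Fin n) ∈ φ.freeVarFinset → u ∈ B := by
    intro u hu
    simpa [B] using hu
  let f : φ.freeVarFinset → Fin B.card ⊕ Fin n := fun v => match hv : v.1 with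
    | Sum.inl u => Sum.inl (e ⟨u, hB u (hv ▸ v.2)⟩)
    | Sum.inr i => Sum.inr i
  refine ⟨B.card, φ.restrictFreeVar f, fun i => (e.symm i : U), ?_⟩
  intro a
  rw [realize_inst]
  symm
  refine BoundedFormula.realize_restrictFreeVar (Sum.elim id a) ?_
  intro v
  obtain ⟨v, hv⟩ := v
  cases v with
  | inl u => simp [f]
  | inr i => simp [f]

/-- the realisations of `p|A` -/
def GType.Realizes (p : GType L U n) (A : Set U) (x : Fin n → U) : Prop :=
  ∀ ψ ∈ p.restrict A, ψ.Realize (Sum.elim (fun c : A => (c : U)) x)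

theorem GType.exists_realizes (p : GType L U n) {κ : Cardinal.{u}} (hU : Saturated L U κ) (A : Set U)
    (hA : Cardinal.mk A < κ) : ∃ x : Fin n → U, p.Realizes A x := by
  classical
  refine hU A hA n (p.restrict A) ?_
  intro s hs
  obtain ⟨a, ha⟩ := p.finSat (s.image lift) (by
    intro φ hφ
    obtain ⟨ψ, hψ, rfl⟩ := Finset.mem_image.1 hφ
    exact hs ψ hψ)
  refine ⟨a, fun φ hφ => ?_⟩
  rw [← realize_lift]
  exact ha _ (Finset.mem_image_of_mem _ hφ)

theorem GType.Realizes.iff {p : GType L U n} {A : Set U} {x : Fin n → U} (h : p.Realizes A x)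
    (ψ : L.Formula (A ⊕ Fin n)) : lift ψ ∈ p.carrier ↔ ψ.Realize (Sum.elim (fun c : A => (c : U)) x) := by
  constructor
  · exact fun h1 => h ψ h1
  · intro h1
    by_contra h2
    have h3 : lift ψ.not ∈ p.carrier := by
      have : lift ψ.not = (lift ψ).not := rfl
      rw [this, p.not_mem_iff]
      exact h2
    have h4 := h ψ.not h3
    rw [Formula.realize_not] at h4
    exact h4 h1

/-- membership of an instance with parameters in `A` -/
theorem GType.Realizes.inst_iff {p : GType L U n} {A : Set U} {x : Fin n → U} (h : p.Realizes A x) {m : ℕ}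
    (φ : L.Formula (Fin m ⊕ Fin n)) (b : Fin m → U) (hb : ∀ i, b i ∈ A) :
    inst φ b ∈ p.carrier ↔ φ.Realize (Sum.elim b x) := by
  have h1 := h.iff (φ.relabel (Sum.map (fun i => (⟨b i, hb i⟩ : A)) id))
  have h2 : lift (φ.relabel (Sum.map (fun i => (⟨b i, hb i⟩ : A)) (id : Fin n → Fin n))) ∈ p.carrier ↔
      inst φ b ∈ p.carrier := by
    refine p.mem_congr (fun a => ?_)
    rw [realize_lift, realize_inst, Formula.realize_relabel]
    have : (Sum.elim (fun c : A => (c : U)) a ∘ Sum.map (fun i => (⟨b i, hb i⟩ : A)) id : Fin m ⊕ Fin n → U) =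
        Sum.elim b a := by
      funext z; cases z <;> rfl
    rw [this]
  rw [← h2, h1, Formula.realize_relabel]
  have : (Sum.elim (fun c : A => (c : U)) x ∘ Sum.map (fun i => (⟨b i, hb i⟩ : A)) id : Fin m ⊕ Fin n → U) =
      Sum.elim b x := by
    funext z; cases z <;> rfl
  rw [this]

theorem GType.Realizes.mono {p : GType L U n} {A B : Set U} {x : Fin n → U} (h : p.Realizes B x) (hAB : A ⊆ B) :
    p.Realizes A x := by
  intro ψ hψ
  have hψ' : lift ψ ∈ p.carrier := hψ
  let ψ' : L.Formula (B ⊕ Fin n) := ψ.relabel (Sum.map (Set.inclusion hAB) id)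
  have h1 : lift ψ' ∈ p.carrier := by
    refine (p.mem_congr (fun a => ?_)).1 hψ'
    rw [realize_lift, realize_lift, Formula.realize_relabel]
    have : (Sum.elim (fun c : B => (c : U)) a ∘ Sum.map (Set.inclusion hAB) id : A ⊕ Fin n → U) =
        Sum.elim (fun c : A => (c : U)) a := by
      funext z; cases z <;> rfl
    rw [this]
  have h2 := (h.iff ψ').1 h1
  rw [Formula.realize_relabel] at h2
  have : (Sum.elim (fun c : B => (c : U)) x ∘ Sum.map (Set.inclusion hAB) id : A ⊕ Fin n → U) =
      Sum.elim (fun c : A => (c : U)) x := by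
    funext z; cases z <;> rfl
  rwa [this] at h2

end

end Pool.Agent.helper19.IT
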