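import Mathlib
import Pool.Agent.helper19.IT.Defs
import Pool.Agent.helper19.IT.Basic

/-!
# MP_669a53_lc : in a binary NIP theory an invariant type is determined by its restriction to `M` and its `2`-code
-/

set_option autoImplicit false

namespace Pool.Agent.helper19.IT

open FirstOrder FirstOrder.Language Cardinal

universe u

section
variable {L : FirstOrder.Language.{u, u}} {U : Type u} [L.Structure U] {n : ℕ}

/-- `Binary` for formulas whose variables are indexed by a finite type -/
theorem Binary.fintype (hB : Binary L U) {α : Type} [Finite α] [DecidableEq α] (φ : L.Formula α) :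
    ∃ X : Finset (α × α × L.Formula (Fin 2)), ∀ a b : α → U,
      (∀ t ∈ X, t.2.2.Realize ![a t.1, a t.2.1] ↔ t.2.2.Realize ![b t.1, b t.2.1]) →
      (φ.Realize a ↔ φ.Realize b) := by
  classical
  obtain ⟨N, ⟨e⟩⟩ := Finite.exists_equiv_fin α
  obtain ⟨X, hX⟩ := hB N (φ.relabel e)
  refine ⟨X.image (fun t => (e.symm t.1, e.symm t.2.1, t.2.2)), fun a b h => ?_⟩
  have h1 := hX (a ∘ e.symm) (b ∘ e.symm) (by
    intro t ht
    exact h _ (Finset.mem_image_of_mem _ ht))
  rw [Formula.realize_relabel, Formula.realize_relabel] at h1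
  have h2 : ∀ c : α → U, (c ∘ e.symm) ∘ e = c := fun c => by funext x; simp
  rwa [h2, h2] at h1

/-- the formula `χ(y; x_t)` -/
def chi (χ : L.Formula (Fin 2)) (t : Fin n) : L.Formula (Fin 1 ⊕ Fin n) :=
  χ.relabel ![Sum.inl 0, Sum.inr t]

theorem realize_chi (χ : L.Formula (Fin 2)) (t : Fin n) (b : Fin 1 → U) (a : Fin n → U) :
    (chi χ t).Realize (Sum.elim b a) ↔ χ.Realize ![b 0, a t] := by
  rw [chi, Formula.realize_relabel]
  have : (Sum.elim b a ∘ (![Sum.inl 0, Sum.inr t] : Fin 2 → Fin 1 ⊕ Fin n)) = ![b 0, a t] := by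
    funext x
    fin_cases x <;> rfl
  rw [this]

/-- the `2`-code of `p`: all `(s, t, χ)` such that `χ(a_s; x_t) ∈ p` for a realisation `a` of `p|A` -/
def GType.code (p : GType L U n) (A : Set U) : Set (Fin n × Fin n × L.Formula (Fin 2)) :=
  {c | ∃ a : Fin n → U, p.Realizes A a ∧ inst (chi c.2.2 c.2.1) (fun _ => a c.1) ∈ p.carrier}

theorem GType.code_iff {p : GType L U n} {A : Set U} (hp : p.Invariant A) (c : Fin n × Fin n × L.Formula (Fin 2))
    {a : Fin n → U} (ha : p.Realizes A a) :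
    c ∈ p.code A ↔ inst (chi c.2.2 c.2.1) (fun _ => a c.1) ∈ p.carrier := by
  constructor
  · rintro ⟨a', ha', h⟩
    refine (hp 1 _ _ _ ?_).1 h
    intro ψ
    have h1 := (ha.iff (ψ.relabel (Sum.map id (fun _ => c.1)))).symm.trans
      (ha'.iff (ψ.relabel (Sum.map id (fun _ => c.1))))
    rw [Formula.realize_relabel, Formula.realize_relabel] at h1
    have h2 : ∀ v : Fin n → U, (Sum.elim (fun c : A => (c : U)) v ∘ Sum.map id (fun _ : Fin 1 => c.1)) =
        Sum.elim (fun c : A => (c : U)) (fun _ => v c.1) := by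
      intro v; funext z; cases z <;> rfl
    rw [h2, h2] at h1
    exact h1.symm
  · exact fun h => ⟨a, ha, h⟩

/-- the sequence of realisations -/
theorem exists_seq {κ : Cardinal.{u}} (hκ : ℵ₀ ≤ κ) (hU : Saturated L U (Order.succ κ)) (B : Set U)
    (hB : Cardinal.mk B ≤ κ) (p : ℕ → GType L U n) (N : ℕ) : ∃ a : ℕ → Fin n → U, ∀ k < N,
      (p k).Realizes (B ∪ {x | ∃ j < k, ∃ i, x = a j i}) (a k) := by
  classical
  induction N with
  | zero =>
    obtain ⟨x, -⟩ := (p 0).exists_realizes hU B (Order.lt_succ_of_le hB)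
    exact ⟨fun _ => x, fun k hk => absurd hk (Nat.not_lt_zero _)⟩
  | succ N ih =>
    obtain ⟨a, ha⟩ := ih
    have hfin : {x : U | ∃ j < N, ∃ i, x = a j i}.Finite := by
      have : {x : U | ∃ j < N, ∃ i, x = a j i} ⊆
          (fun t : ℕ × Fin n => a t.1 t.2) '' ((Set.Iio N) ×ˢ Set.univ) := by
        rintro x ⟨j, hj, i, rfl⟩
        exact ⟨(j, i), ⟨hj, trivial⟩, rfl⟩
      exact (((Set.finite_Iio N).prod Set.finite_univ).image _).subset this
    obtain ⟨x, hx⟩ := (p N).exists_realizes hU (B ∪ {x | ∃ j < N, ∃ i, x = a j i}) (by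
      refine Order.lt_succ_of_le ((mk_union_le _ _).trans ?_)
      refine (add_le_max _ _).trans ?_
      refine max_le (max_le hB ?_) hκ
      exact (hfin.lt_aleph0.le).trans hκ)
    refine ⟨Function.update a N x, fun k hk => ?_⟩
    rcases Nat.lt_succ_iff_lt_or_eq.1 hk with h | rfl
    · have h1 : {x_1 : U | ∃ j < k, ∃ i, x_1 = Function.update a N x j i} = {x | ∃ j < k, ∃ i, x = a j i} := by
        ext z
        constructor
        · rintro ⟨j, hj, i, rfl⟩
          exact ⟨j, hj, i, by rw [Function.update_of_ne (by omega)]⟩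
        · rintro ⟨j, hj, i, rfl⟩
          exact ⟨j, hj, i, by rw [Function.update_of_ne (by omega)]⟩
      rw [h1, Function.update_of_ne (by omega)]
      exact ha k h
    · have h1 : {x_1 : U | ∃ j < k, ∃ i, x_1 = Function.update a k x j i} = {x | ∃ j < k, ∃ i, x = a j i} := by
        ext z
        constructor
        · rintro ⟨j, hj, i, rfl⟩
          exact ⟨j, hj, i, by rw [Function.update_of_ne (by omega)]⟩
        · rintro ⟨j, hj, i, rfl⟩
          exact ⟨j, hj, i, by rw [Function.update_of_ne (by omega)]⟩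
      rw [h1, Function.update_self]
      exact hx

/-- the formula `ψ_s(x_1, ..., x_K) = ∃ y ⋀ (φ(y; x_i) ↔ i ∈ s)` -/
noncomputable def psiS {m : ℕ} (φ : L.Formula (Fin m ⊕ Fin n)) (K : ℕ) (s : Finset (Fin K)) :
    L.Formula (Fin K × Fin n) :=
  Formula.iExs (Fin m) (Formula.iInf (fun i : Fin K =>
    if i ∈ s then φ.relabel (Sum.elim (fun y => Sum.inr y) (fun j => Sum.inl (i, j)))
    else (φ.relabel (Sum.elim (fun y => Sum.inr y) (fun j => Sum.inl (i, j)))).not))

theorem realize_psiS {m : ℕ} (φ : L.Formula (Fin m ⊕ Fin n)) (K : ℕ) (s : Finset (Fin K))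
    (a : Fin K × Fin n → U) :
    (psiS φ K s).Realize a ↔ ∃ b : Fin m → U, ∀ i, φ.Realize (Sum.elim b (fun j => a (i, j))) ↔ i ∈ s := by
  rw [psiS, Formula.realize_iExs]
  refine exists_congr (fun b => ?_)
  rw [Formula.realize_iInf]
  refine forall_congr' (fun i => ?_)
  have h2 : (Sum.elim a b ∘ (Sum.elim (fun y => Sum.inr y) (fun j => Sum.inl (i, j)) :
      Fin m ⊕ Fin n → (Fin K × Fin n) ⊕ Fin m)) = Sum.elim b (fun j => a (i, j)) := by
    funext z; cases z <;> rfl
  split_ifs with h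
  · rw [Formula.realize_relabel, h2]
    simp [h]
  · rw [Formula.realize_not, Formula.realize_relabel, h2]
    simp [h]

/-- the finite set of pairs on which the truth of all `ψ_s` depends -/
theorem exists_Y (hB : Binary L U) {m : ℕ} (φ : L.Formula (Fin m ⊕ Fin n)) (K : ℕ) :
    ∃ X : Finset ((Fin K × Fin n) × (Fin K × Fin n) × L.Formula (Fin 2)), ∀ s : Finset (Fin K),
      ∀ a b : Fin K × Fin n → U,
      (∀ t ∈ X, t.2.2.Realize ![a t.1, a t.2.1] ↔ t.2.2.Realize ![b t.1, b t.2.1]) →
      ((psiS φ K s).Realize a ↔ (psiS φ K s).Realize b) := by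
  classical
  choose X hX using fun s : Finset (Fin K) => hB.fintype (psiS φ K s)
  refine ⟨Finset.univ.biUnion X, fun s a b h => hX s a b (fun t ht => h t ?_)⟩
  exact Finset.mem_biUnion.2 ⟨s, Finset.mem_univ _, ht⟩

/-- the opposite formula -/
def op (χ : L.Formula (Fin 2)) : L.Formula (Fin 2) := χ.relabel ![1, 0]

theorem realize_op (χ : L.Formula (Fin 2)) (x y : U) : (op χ).Realize ![x, y] ↔ χ.Realize ![y, x] := by
  rw [op, Formula.realize_relabel]
  have : (![x, y] ∘ (![1, 0] : Fin 2 → Fin 2)) = ![y, x] := by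
    funext z; fin_cases z <;> rfl
  rw [this]

/-- **Key lemma.** For every `φ(y; x)` there is a finite set `Y` such that an `M`-invariant type `p` with given
restriction to `M` has its `φ`-type determined by `code ∩ Y`; `Y` does not depend on `M`, nor on `p`. -/
theorem key (hN : NIP L U) (hB : Binary L U) {m : ℕ} (φ : L.Formula (Fin m ⊕ Fin n)) :
    ∃ Y : Finset (Fin n × Fin n × L.Formula (Fin 2)), ∀ (M : Set U),
      Saturated L U (Order.succ (max ℵ₀ (Cardinal.mk M))) → ∀ p p' : GType L U n, p.Invariant M → p'.Invariant M →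
      p.restrict M = p'.restrict M → (∀ c ∈ Y, c ∈ p.code M ↔ c ∈ p'.code M) →
      ∀ b : Fin m → U, inst φ b ∈ p.carrier → inst φ b ∈ p'.carrier := by
  classical
  obtain ⟨K, hK⟩ := hN m n φ
  obtain ⟨X, hX⟩ := exists_Y hB φ K
  refine ⟨X.image (fun t => (t.1.2, t.2.1.2, t.2.2)) ∪ X.image (fun t => (t.2.1.2, t.1.2, op t.2.2)), ?_⟩
  intro M hU p p' hp hp' hr hc b hb
  by_contra hb'
  have hκ : ℵ₀ ≤ max ℵ₀ (Cardinal.mk M) := le_max_left _ _
  let q : ℕ → GType L U n := fun k => if k % 2 = 0 then p else p'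
  have hqr : ∀ k, (q k).restrict M = p.restrict M := by
    intro k
    by_cases h : k % 2 = 0
    · simp [q, h]
    · simp [q, h, hr]
  have hqi : ∀ k, (q k).Invariant M := by
    intro k
    by_cases h : k % 2 = 0
    · simpa [q, h] using hp
    · simpa [q, h] using hp'
  obtain ⟨a, ha⟩ := exists_seq hκ hU (M ∪ Set.range b) (by
    refine (mk_union_le _ _).trans ((add_le_max _ _).trans (max_le (max_le (le_max_right _ _) ?_) hκ))
    exact ((Set.finite_range b).lt_aleph0.le).trans hκ) q (2 * K)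
  have haM : ∀ k < 2 * K, (q k).Realizes M (a k) := fun k hk =>
    (ha k hk).mono (Set.subset_union_left.trans Set.subset_union_left)
  -- the truth value of `φ(b; a_k)`
  have hab : ∀ k < 2 * K, (φ.Realize (Sum.elim b (a k)) ↔ k % 2 = 0) := by
    intro k hk
    rw [← (ha k hk).inst_iff φ b (fun i => Or.inl (Or.inr ⟨i, rfl⟩))]
    by_cases h : k % 2 = 0
    · simp [q, h, hb]
    · simp [q, h, hb']
  -- the truth value of `χ(a_j, a_k)` for `j < k`
  have hlt : ∀ (s t : Fin n) (χ : L.Formula (Fin 2)), ((s, t, χ) ∈ p.code M ↔ (s, t, χ) ∈ p'.code M) →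
      ∀ j k, j < k → k < 2 * K → (χ.Realize ![a j s, a k t] ↔ (s, t, χ) ∈ p.code M) := by
    intro s t χ hst j k hjk hk
    have h1 : (s, t, χ) ∈ (q k).code M ↔ (s, t, χ) ∈ p.code M := by
      by_cases h : k % 2 = 0
      · simp [q, h]
      · simp [q, h, hst]
    have h2 : (q k).Realizes M (a j) := by
      intro ψ hψ
      refine haM j (hjk.trans hk) ψ ?_
      rwa [hqr j, ← hqr k]
    rw [← h1, GType.code_iff (hqi k) _ h2, (ha k hk).inst_iff _ _ (fun i => Or.inr ⟨j, hjk, s, rfl⟩), realize_chi]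
  -- the truth value of `χ(a_j, a_j)`
  have heq : ∀ (s t : Fin n) (χ : L.Formula (Fin 2)), ∀ j k, j < 2 * K → k < 2 * K →
      (χ.Realize ![a j s, a j t] ↔ χ.Realize ![a k s, a k t]) := by
    intro s t χ j k hj hk
    have h3 : ∀ i, i < 2 * K → (χ.Realize ![a i s, a i t] ↔
        lift ((χ.relabel ![Sum.inr s, Sum.inr t] : L.Formula (M ⊕ Fin n))) ∈ p.carrier) := by
      intro i hi
      have h4 := (haM i hi).iff (χ.relabel ![Sum.inr s, Sum.inr t] : L.Formula (M ⊕ Fin n))
      rw [Formula.realize_relabel] at h4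
      have h5 : (Sum.elim (fun c : M => (c : U)) (a i) ∘ (![Sum.inr s, Sum.inr t] : Fin 2 → M ⊕ Fin n)) =
          ![a i s, a i t] := by
        funext x; fin_cases x <;> rfl
      rw [h5] at h4
      rw [← h4]
      have h6 := hqr i
      constructor
      · intro h7
        have : (χ.relabel ![Sum.inr s, Sum.inr t] : L.Formula (M ⊕ Fin n)) ∈ (q i).restrict M := h7
        rw [h6] at this
        exact this
      · intro h7
        have : (χ.relabel ![Sum.inr s, Sum.inr t] : L.Formula (M ⊕ Fin n)) ∈ p.restrict M := h7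
        rw [← h6] at this
        exact this
    rw [h3 j hj, h3 k hk]
  -- two increasing sequences have the same `ψ_s`
  have hmain : ∀ s : Finset (Fin K), ∀ f g : Fin K → ℕ, StrictMono f → StrictMono g → (∀ i, f i < 2 * K) →
      (∀ i, g i < 2 * K) → ((psiS φ K s).Realize (fun z => a (f z.1) z.2) ↔
        (psiS φ K s).Realize (fun z => a (g z.1) z.2)) := by
    intro s f g hf hg hf' hg'
    refine hX s _ _ (fun t ht => ?_)
    obtain ⟨⟨i, si⟩, ⟨j, tj⟩, χ⟩ := t
    simp only
    rcases lt_trichotomy i j with h | h | h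
    · have h1 := hc (si, tj, χ) (Finset.mem_union_left _ (Finset.mem_image.2 ⟨_, ht, rfl⟩))
      rw [hlt si tj χ h1 _ _ (hf h) (hf' j), hlt si tj χ h1 _ _ (hg h) (hg' j)]
    · subst h
      exact heq si tj χ _ _ (hf' i) (hg' i)
    · have h1 := hc (tj, si, op χ) (Finset.mem_union_right _ (Finset.mem_image.2 ⟨_, ht, rfl⟩))
      rw [← realize_op χ (a (f j) tj), ← realize_op χ (a (g j) tj),
        hlt tj si (op χ) h1 _ _ (hf h) (hf' i), hlt tj si (op χ) h1 _ _ (hg h) (hg' i)]
  refine hK ⟨fun i => a i, fun s => ?_⟩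
  let s' : Finset (Fin K) := Finset.univ.filter (fun i => i ∈ s)
  have hs' : ∀ i, i ∈ s' ↔ i ∈ s := by intro i; simp [s']
  let f : Fin K → ℕ := fun i => if i ∈ s then 2 * (i : ℕ) else 2 * (i : ℕ) + 1
  have hf : StrictMono f := by
    intro i j hij
    have : (i : ℕ) < j := hij
    simp only [f]
    split_ifs <;> omega
  have hf' : ∀ i, f i < 2 * K := by
    intro i
    have := i.2
    simp only [f]
    split_ifs <;> omega
  have h1 : (psiS φ K s').Realize (fun z => a (f z.1) z.2) := by
    rw [realize_psiS]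
    refine ⟨b, fun i => ?_⟩
    rw [hs']
    have h2 := hab (f i) (hf' i)
    refine h2.trans ?_
    by_cases h : i ∈ s
    · simp [f, h]
    · simp [f, h]
  rw [hmain s' f (fun i => (i : ℕ)) hf (fun i j h => h) hf' (fun i => by have := i.2; omega), realize_psiS] at h1
  obtain ⟨b', hb'⟩ := h1
  exact ⟨b', fun i => (hb' i).trans (hs' i)⟩

end

end Pool.Agent.helper19.IT
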