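import Mathlib
import Pool.Agent.helper19.IT.Defs
import Pool.Agent.helper19.IT.Basic
import Pool.Agent.helper19.IT.Upper

/-!
# MP_669a53_lc : binary NIP theories, the three bounds
-/

set_option autoImplicit false

namespace Pool.Agent.helper19.IT

open FirstOrder FirstOrder.Language Cardinal

universe u

section
variable {L : FirstOrder.Language.{u, u}} {U : Type u} [L.Structure U] {n : ℕ}

/-- the local bound -/
theorem traces_le (hN : NIP L U) (hB : Binary L U) {m : ℕ} (φ : L.Formula (Fin m ⊕ Fin n)) :
    ∃ K : ℕ, ∀ (M : Set U), Saturated L U (Order.succ (max ℵ₀ (Cardinal.mk M))) →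
      ∀ r : Set (L.Formula (M ⊕ Fin n)),
      Cardinal.mk {t : Set (Fin m → U) // ∃ p : GType L U n, p.Invariant M ∧ p.restrict M = r ∧ p.trace φ = t} ≤
        (K : Cardinal) := by
  classical
  obtain ⟨Y, hY⟩ := key (n := n) hN hB φ
  refine ⟨2 ^ Y.card, fun M hU r => ?_⟩
  choose P hP1 hP2 hP3 using fun t : {t : Set (Fin m → U) // ∃ p : GType L U n, p.Invariant M ∧ p.restrict M = r ∧
    p.trace φ = t} => t.2
  have h1 : Function.Injective (fun t => (fun y : Y => (y : Fin n × Fin n × L.Formula (Fin 2)) ∈ (P t).code M)) := by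
    intro t t' h
    have hc : ∀ c ∈ Y, c ∈ (P t).code M ↔ c ∈ (P t').code M := by
      intro c hc
      have := congrFun h ⟨c, hc⟩
      exact iff_of_eq this
    apply Subtype.ext
    rw [← hP3 t, ← hP3 t']
    ext b
    exact ⟨fun hb => hY M hU (P t) (P t') (hP1 t) (hP1 t') ((hP2 t).trans (hP2 t').symm) hc b hb,
      fun hb => hY M hU (P t') (P t) (hP1 t') (hP1 t) ((hP2 t').trans (hP2 t).symm)
        (fun c h => (hc c h).symm) b hb⟩
  have h3 : Cardinal.mk (Y → Prop) = ((2 ^ Y.card : ℕ) : Cardinal.{u}) := by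
    simp
  have h4 := Cardinal.mk_le_of_injective (α := {t : Set (Fin m → U) // ∃ p : GType L U n, p.Invariant M ∧
    p.restrict M = r ∧ p.trace φ = t}) (β := ULift (Y → Prop)) (f := fun t => ULift.up (fun y : Y =>
      (y : Fin n × Fin n × L.Formula (Fin 2)) ∈ (P t).code M)) (fun t t' h => h1 (ULift.up_injective h))
  rw [Cardinal.mk_uLift, h3, Cardinal.lift_natCast] at h4
  exact h4

theorem code_injective (hN : NIP L U) (hB : Binary L U) (M : Set U)
    (hU : Saturated L U (Order.succ (max ℵ₀ (Cardinal.mk M)))) (p p' : GType L U n) (hp : p.Invariant M)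
    (hp' : p'.Invariant M) (hr : p.restrict M = p'.restrict M) (hc : p.code M = p'.code M) : p = p' := by
  have h1 : ∀ q q' : GType L U n, q.Invariant M → q'.Invariant M → q.restrict M = q'.restrict M →
      q.code M = q'.code M → ∀ φ, φ ∈ q.carrier → φ ∈ q'.carrier := by
    intro q q' hq hq' hr hc φ hφ
    obtain ⟨m, φ0, b, hb⟩ := exists_inst φ
    rw [q'.mem_congr hb]
    rw [q.mem_congr hb] at hφ
    obtain ⟨Y, hY⟩ := key (n := n) hN hB φ0
    exact hY M hU q q' hq hq' hr (fun c _ => by rw [hc]) b hφ
  apply GType.ext'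
  exact Set.Subset.antisymm (fun φ hφ => h1 p p' hp hp' hr hc φ hφ)
    (fun φ hφ => h1 p' p hp' hp hr.symm hc.symm φ hφ)

/-- the global bound -/
theorem invariant_le (hN : NIP L U) (hB : Binary L U) (M : Set U)
    (hU : Saturated L U (Order.succ (max ℵ₀ (Cardinal.mk M)))) (r : Set (L.Formula (M ⊕ Fin n))) :
    Cardinal.mk {p : GType L U n // p.Invariant M ∧ p.restrict M = r} ≤ 2 ^ (max ℵ₀ L.card) := by
  have h1 : Function.Injective (fun p : {p : GType L U n // p.Invariant M ∧ p.restrict M = r} =>
      p.1.code M) := by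
    intro p p' h
    exact Subtype.ext (code_injective hN hB M hU p.1 p'.1 p.2.1 p'.2.1 (p.2.2.trans p'.2.2.symm) h)
  have h2 := Cardinal.mk_le_of_injective h1
  refine h2.trans ?_
  rw [Cardinal.mk_set]
  refine Cardinal.power_le_power_left two_ne_zero ?_
  have h3 : Cardinal.mk (L.Formula (Fin 2)) ≤ max ℵ₀ L.card := by
    have h4 : Function.Injective (fun φ : L.Formula (Fin 2) => (⟨0, φ⟩ : Σ k, L.BoundedFormula (Fin 2) k)) := by
      intro a b h
      simpa using h
    have h5 := Cardinal.mk_le_of_injective h4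
    refine h5.trans (BoundedFormula.card_le.trans ?_)
    refine max_le (le_max_left _ _) ?_
    refine (add_le_max _ _).trans ?_
    refine max_le (max_le ?_ ?_) (le_max_left _ _)
    · refine le_trans ?_ (le_max_left _ _)
      simp
    · simp
  rw [Cardinal.mk_prod, Cardinal.mk_prod]
  simp only [Cardinal.lift_id, Cardinal.mk_fin, Cardinal.lift_natCast, Cardinal.lift_mul]
  have h0 : ℵ₀ ≤ max ℵ₀ L.card := le_max_left _ _
  have hn : (n : Cardinal.{u}) ≤ max ℵ₀ L.card := ((Cardinal.natCast_lt_aleph0 (n := n)).le).trans h0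
  have h3' : Cardinal.lift.{0, u} (Cardinal.lift.{0, u} (Cardinal.mk (L.Formula (Fin 2)))) ≤ max ℵ₀ L.card := by
    simpa using h3
  refine (mul_le_mul' hn (mul_le_mul' hn h3')).trans ?_
  rw [Cardinal.mul_eq_self h0, Cardinal.mul_eq_self h0]

/-- types in the fibre have the same restriction to `M` -/
theorem FEq.restrict_eq {M M' N' N : L.ElementarySubstructure U} (hA : Aux L U M M' N' N) {p q : GType L U n}
    (h : FEq M M' N p q) : p.restrict (M : Set U) = q.restrict (M : Set U) := by
  have hMM : ((M : Set U)) ⊆ (M' : Set U) := hA.le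
  have hMN : ((M : Set U)) ⊆ (N : Set U) := hA.MN
  have h1 : ∀ ψ : L.Formula ((M : Set U) ⊕ Fin n), ψ ∈ q.restrict (M : Set U) → ψ ∈ p.restrict (M : Set U) := by
    intro ψ hψ
    let φ : L.Formula ((M' : Set U) ⊕ Fin n) := ψ.relabel (Sum.map (Set.inclusion hMM) id)
    let ψN : L.Formula ((N : Set U) ⊕ Fin n) := ψ.relabel (Sum.map (Set.inclusion hMN) id)
    have e1 : ∀ a : Fin n → U, (lift φ).Realize (Sum.elim id a) ↔ (lift ψ).Realize (Sum.elim id a) := by
      intro a
      rw [realize_lift, realize_lift, Formula.realize_relabel]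
      have : (Sum.elim (fun c : (M' : Set U) => (c : U)) a ∘ Sum.map (Set.inclusion hMM) id :
          (M : Set U) ⊕ Fin n → U) = Sum.elim (fun c : (M : Set U) => (c : U)) a := by
        funext z; cases z <;> rfl
      rw [this]
    have e2 : ∀ a : Fin n → U, (lift ψN).Realize (Sum.elim id a) ↔ (lift ψ).Realize (Sum.elim id a) := by
      intro a
      rw [realize_lift, realize_lift, Formula.realize_relabel]
      have : (Sum.elim (fun c : (N : Set U) => (c : U)) a ∘ Sum.map (Set.inclusion hMN) id :
          (M : Set U) ⊕ Fin n → U) = Sum.elim (fun c : (M : Set U) => (c : U)) a := by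
        funext z; cases z <;> rfl
      rw [this]
    have hφ : φ ∈ q.restrict (M' : Set U) := (q.mem_congr e1).2 hψ
    obtain ⟨θ, hθ, himp⟩ := h.2 φ hφ
    -- transfer from `N` to `U`
    let Φ : L.Formula N := Formula.iAlls (Fin n) (θ.imp ψN : L.Formula ((N : Set U) ⊕ Fin n))
    have hΦN : Φ.Realize (fun c : N => c) := by
      rw [Formula.realize_iAlls]
      intro a
      rw [Formula.realize_imp]
      have e3 : ∀ χ : L.Formula ((N : Set U) ⊕ Fin n), χ.Realize (Sum.elim (fun c : N => c) a) ↔
          (lift χ).Realize (Sum.elim id (fun i => (a i : U))) := by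
        intro χ
        rw [realize_lift]
        have := N.subtype.map_formula χ (Sum.elim (fun c : N => c) a)
        rw [← this]
        have e4 : (N.subtype ∘ (Sum.elim (fun c : N => c) a) : (N : Set U) ⊕ Fin n → U) =
            Sum.elim (fun c : (N : Set U) => (c : U)) (fun i => (a i : U)) := by
          funext z; cases z <;> rfl
        exact iff_of_eq (congrArg _ e4)
      intro hh
      refine (e3 ψN).2 ((e2 _).2 ((e1 _).1 (himp _ (fun i => (a i).2) ((e3 θ).1 hh))))
    have hΦU : Φ.Realize (fun c : N => (c : U)) := by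
      have := N.subtype.map_formula Φ (fun c : N => c)
      exact this.2 hΦN
    rw [Formula.realize_iAlls] at hΦU
    have h5 : lift ψ ∈ p.carrier := by
      refine p.mem_of_imp {lift θ} (by
        intro χ hχ
        rw [Finset.mem_singleton.1 hχ]
        exact hθ) _ (fun a ha => ?_)
      have h6 := ha (lift θ) (Finset.mem_singleton_self _)
      rw [realize_lift] at h6
      have h7 := hΦU a
      rw [Formula.realize_imp] at h7
      exact (e2 a).1 ((realize_lift _ _).2 (h7 h6))
    exact h5
  apply Set.Subset.antisymm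
  · intro ψ hψ
    by_contra h2
    have h3 : lift ψ ∉ q.carrier := h2
    have h4 : ψ.not ∈ q.restrict (M : Set U) := by
      have : lift ψ.not = (lift ψ).not := rfl
      change lift ψ.not ∈ q.carrier
      rw [this, q.not_mem_iff]
      exact h3
    have h5 := h1 _ h4
    change lift ψ.not ∈ p.carrier at h5
    have h6 : lift ψ.not = (lift ψ).not := rfl
    rw [h6, p.not_mem_iff] at h5
    exact h5 hψ
  · exact fun ψ hψ => h1 ψ hψ

/-- the bound for the fibres of `F_M` -/
theorem fiber_le (hN : NIP L U) (hB : Binary L U) (M M' N' N : L.ElementarySubstructure U)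
    (hU : Saturated L U (Order.succ (max ℵ₀ (Cardinal.mk M)))) (hA : Aux L U M M' N' N) (q : GType L U n) :
    Cardinal.mk (Fiber M M' N q) ≤ 2 ^ (max ℵ₀ L.card) := by
  refine le_trans ?_ (invariant_le hN hB (M : Set U) hU (q.restrict (M : Set U)))
  refine Cardinal.mk_le_of_injective (f := fun p : Fiber M M' N q =>
    (⟨p.1, p.2.1, p.2.2.restrict_eq hA⟩ : {p : GType L U n // p.Invariant (M : Set U) ∧
      p.restrict (M : Set U) = q.restrict (M : Set U)})) ?_
  intro p p' h
  apply Subtype.ext
  have := congrArg Subtype.val h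
  exact this

end

end Pool.Agent.helper19.IT
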