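import Mathlib
import Pool.Agent.helper19.IT.Defs
import Pool.Agent.helper19.IT.Basic

/-!
# MP_669a53_lc : the theory of `ι`-many generic total preorders: quantifier elimination
-/

set_option autoImplicit false

namespace Pool.Agent.helper19.IT

open FirstOrder FirstOrder.Language Cardinal

universe u

/-- the symbols: a binary relation symbol for each `i : ι` -/
inductive ORel (ι : Type u) : ℕ → Type u
  | le (i : ι) : ORel ι 2

/-- the language with a binary relation symbol `≤_i` for each `i : ι` -/
def LO (ι : Type u) : FirstOrder.Language.{u, u} := ⟨fun _ => PEmpty, ORel ι⟩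

/-- the relation `x ≤_i y` in a structure -/
def rle {ι : Type u} {V : Type u} [(LO ι).Structure V] (i : ι) (x y : V) : Prop :=
  Structure.RelMap (L := LO ι) (M := V) (n := 2) (ORel.le i : ORel ι 2) ![x, y]

/-- The standard model: finitely supported functions `ι → ℚ`, with `x ≤_i y` iff `x i ≤ y i`. -/
def Std (ι : Type u) : Type u := ι →₀ ℚ

/-- the coordinate `x i` -/
def co {ι : Type u} (x : Std ι) (i : ι) : ℚ := DFunLike.coe (F := ι →₀ ℚ) x i

instance stdStr (ι : Type u) : (LO ι).Structure (Std ι) where
  funMap {n} f := PEmpty.elim f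
  RelMap {n} r := match n, r with
    | _, ORel.le i => fun x => co (x 0) i ≤ co (x 1) i

instance (ι : Type u) : Nonempty (Std ι) := ⟨(0 : ι →₀ ℚ)⟩

theorem rle_std {ι : Type u} (i : ι) (x y : Std ι) : rle i x y ↔ co x i ≤ co y i := Iff.rfl

theorem card_LO (ι : Type u) : (LO ι).card = Cardinal.mk ι := by
  have e : (LO ι).Symbols ≃ ι :=
    { toFun := fun s => match s with
        | Sum.inl ⟨_, f⟩ => PEmpty.elim f
        | Sum.inr ⟨_, ORel.le i⟩ => i
      invFun := fun i => Sum.inr ⟨2, ORel.le i⟩
      left_inv := by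
        rintro (⟨n, f⟩ | ⟨n, r⟩)
        · exact PEmpty.elim f
        · cases r; rfl
      right_inv := fun i => rfl }
  exact Cardinal.mk_congr e

section
variable {ι : Type u}

/-- the tuples satisfy the same atomic formulas in `=` and `≤_i`, `i ∈ F` -/
def SameF (F : Finset ι) {V W : Type u} [(LO ι).Structure V] [(LO ι).Structure W] {α : Type} (v : α → V) (w : α → W) :
    Prop :=
  ∀ j k, (v j = v k ↔ w j = w k) ∧ ∀ i ∈ F, (rle i (v j) (v k) ↔ rle i (w j) (w k))

theorem SameF.mono {F G : Finset ι} (h : F ⊆ G) {V W : Type u} [(LO ι).Structure V] [(LO ι).Structure W] {α : Type}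
    {v : α → V} {w : α → W} (hG : SameF G v w) : SameF F v w :=
  fun j k => ⟨(hG j k).1, fun i hi => (hG j k).2 i (h hi)⟩

theorem SameF.comp {F : Finset ι} {V W : Type u} [(LO ι).Structure V] [(LO ι).Structure W] {α β : Type}
    {v : α → V} {w : α → W} (h : SameF F v w) (e : β → α) : SameF F (v ∘ e) (w ∘ e) :=
  fun j k => h (e j) (e k)

theorem SameF.symm {F : Finset ι} {V W : Type u} [(LO ι).Structure V] [(LO ι).Structure W] {α : Type}
    {v : α → V} {w : α → W} (h : SameF F v w) : SameF F w v :=
  fun j k => ⟨(h j k).1.symm, fun i hi => ((h j k).2 i hi).symm⟩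

/-- extension of a partial isomorphism of finite sets of rationals by one point -/
theorem rat_ext {α : Type} [Finite α] (c d : α → ℚ) (h : ∀ j k, c j ≤ c k ↔ d j ≤ d k) (q : ℚ) :
    ∃ q' : ℚ, ∀ j, (c j ≤ q ↔ d j ≤ q') ∧ (q ≤ c j ↔ q' ≤ d j) := by
  classical
  have := Fintype.ofFinite α
  by_cases hq : ∃ j, c j = q
  · obtain ⟨j, rfl⟩ := hq
    exact ⟨d j, fun k => ⟨h k j, h j k⟩⟩
  · push Not at hq
    obtain ⟨q', h1, h2⟩ := Order.exists_between_finsets ((Finset.univ.filter (fun j => c j < q)).image d)
      ((Finset.univ.filter (fun j => q < c j)).image d) (by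
        intro x hx y hy
        obtain ⟨j, hj, rfl⟩ := Finset.mem_image.1 hx
        obtain ⟨k, hk, rfl⟩ := Finset.mem_image.1 hy
        have hj' := (Finset.mem_filter.1 hj).2
        have hk' := (Finset.mem_filter.1 hk).2
        rw [← not_le, ← h k j, not_le]
        exact hj'.trans hk')
    refine ⟨q', fun j => ?_⟩
    rcases lt_or_gt_of_ne (hq j) with hj | hj
    · have := h1 (d j) (Finset.mem_image.2 ⟨j, by simp [hj], rfl⟩)
      exact ⟨iff_of_true hj.le this.le, iff_of_false (not_le.2 hj) (not_le.2 this)⟩
    · have := h2 (d j) (Finset.mem_image.2 ⟨j, by simpa using hj, rfl⟩)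
      exact ⟨iff_of_false (not_le.2 hj) (not_le.2 this), iff_of_true hj.le this.le⟩

/-- back and forth in the standard model -/
theorem std_ext [Infinite ι] (F : Finset ι) {α : Type} [Finite α] (v w : α → Std ι) (h : SameF F v w) (x : Std ι) :
    ∃ y : Std ι, SameF F (fun o : Option α => o.elim x v) (fun o : Option α => o.elim y w) := by
  classical
  by_cases hx : ∃ j, v j = x
  · obtain ⟨j, rfl⟩ := hx
    refine ⟨w j, ?_⟩
    have h1 := h.comp (fun o : Option α => o.elim j id)
    have e1 : ∀ {V : Type u} (v : α → V), (v ∘ fun o : Option α => o.elim j id) =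
        (fun o : Option α => o.elim (v j) v) := by
      intro V v; funext o; cases o <;> rfl
    rwa [e1, e1] at h1
  · push Not at hx
    have := Fintype.ofFinite α
    choose g hg using fun i : ι => fun hi : i ∈ F => rat_ext (fun j => co (v j) i) (fun j => co (w j) i)
      (fun j k => (h j k).2 i hi) (co x i)
    obtain ⟨i₁, hi₁⟩ := Infinite.exists_notMem_finset F
    obtain ⟨r, hr⟩ := Infinite.exists_notMem_finset (Finset.univ.image (fun j => co (w j) i₁))
    let f : ι → ℚ := fun i => if hi : i ∈ F then g i hi else if i = i₁ then r else 0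
    let y : Std ι := Finsupp.onFinset (insert i₁ F) f (by
      intro i hi
      by_contra h1
      simp only [Finset.mem_insert, not_or] at h1
      simp [f, h1.1, h1.2] at hi)
    have hyc : ∀ i, co y i = f i := fun i => rfl
    have hyF : ∀ i (hi : i ∈ F), co y i = g i hi := by
      intro i hi
      simp [hyc, f, hi]
    have hy1 : co y i₁ = r := by
      simp [hyc, f, hi₁]
    have hyne : ∀ j, w j ≠ y := by
      intro j hj
      apply hr
      rw [Finset.mem_image]
      refine ⟨j, Finset.mem_univ _, ?_⟩
      rw [← hy1]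
      exact congrArg (fun z : Std ι => co z i₁) hj
    refine ⟨y, ?_⟩
    intro o o'
    cases o with
    | none =>
      cases o' with
      | none =>
        refine ⟨by simp, fun i hi => ?_⟩
        exact iff_of_true (le_refl (co x i)) (le_refl (co y i))
      | some k =>
        refine ⟨iff_of_false (fun e => hx k e.symm) (fun e => hyne k e.symm), fun i hi => ?_⟩
        have := ((hg i hi) k).2
        change (co x i ≤ co (v k) i) ↔ (co y i ≤ co (w k) i)
        rw [hyF i hi]
        exact this
    | some j =>
      cases o' with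
      | none =>
        refine ⟨iff_of_false (fun e => hx j e) (fun e => hyne j e), fun i hi => ?_⟩
        have := ((hg i hi) j).1
        change (co (v j) i ≤ co x i) ↔ (co (w j) i ≤ co y i)
        rw [hyF i hi]
        exact this
      | some k => exact h j k

/-- every term is a variable -/
theorem term_var {α : Type} (t : (LO ι).Term α) : ∃ a, t = Term.var a := by
  cases t with
  | var a => exact ⟨a, rfl⟩
  | func f _ => exact PEmpty.elim f

/-- quantifier elimination in the standard model -/
theorem qe_std [Infinite ι] {α : Type} [Finite α] {l : ℕ} (φ : (LO ι).BoundedFormula α l) :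
    ∃ F : Finset ι, ∀ (v w : α → Std ι) (xs ys : Fin l → Std ι), SameF F (Sum.elim v xs) (Sum.elim w ys) →
      (φ.Realize v xs ↔ φ.Realize w ys) := by
  classical
  induction φ with
  | falsum => exact ⟨∅, fun v w xs ys _ => Iff.rfl⟩
  | @equal l t₁ t₂ =>
    obtain ⟨a, rfl⟩ := term_var t₁
    obtain ⟨b, rfl⟩ := term_var t₂
    exact ⟨∅, fun v w xs ys h => (h a b).1⟩
  | @rel l n R ts =>
    cases R with
    | le i =>
      obtain ⟨a, ha⟩ := term_var (ts 0)
      obtain ⟨b, hb⟩ := term_var (ts 1)
      refine ⟨{i}, fun v w xs ys h => ?_⟩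
      have h1 := (h a b).2 i (by simp)
      have h2 : ∀ (v : α → Std ι) (xs : Fin l → Std ι), (BoundedFormula.rel (L := LO ι) (ORel.le i : ORel ι 2) ts).Realize v xs ↔
          rle i (Sum.elim v xs a) (Sum.elim v xs b) := by
        intro v xs
        have h3 : (fun k => (ts k).realize (Sum.elim v xs)) = ![Sum.elim v xs a, Sum.elim v xs b] := by
          funext k
          fin_cases k
          · simp [ha]
          · simp [hb]
        change Structure.RelMap (L := LO ι) (M := Std ι) (n := 2) (ORel.le i : ORel ι 2)
          (fun k => (ts k).realize (Sum.elim v xs)) ↔ _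
        rw [h3]
        rfl
      rw [h2, h2]
      exact h1
  | imp φ ψ ih1 ih2 =>
    obtain ⟨F, hF⟩ := ih1
    obtain ⟨G, hG⟩ := ih2
    refine ⟨F ∪ G, fun v w xs ys h => ?_⟩
    rw [BoundedFormula.realize_imp, BoundedFormula.realize_imp, hF v w xs ys (h.mono Finset.subset_union_left),
      hG v w xs ys (h.mono Finset.subset_union_right)]
  | @all l φ ih =>
    obtain ⟨F, hF⟩ := ih
    have key : ∀ (v w : α → Std ι) (xs ys : Fin l → Std ι), SameF F (Sum.elim v xs) (Sum.elim w ys) →
        (φ.all.Realize w ys → φ.all.Realize v xs) := by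
      intro v w xs ys h h1
      rw [BoundedFormula.realize_all] at h1 ⊢
      intro x
      obtain ⟨y, hy⟩ := std_ext F _ _ h x
      have e1 : ∀ (v : α → Std ι) (xs : Fin l → Std ι) (x : Std ι), Sum.elim v (Fin.snoc xs x) =
          (fun o : Option (α ⊕ Fin l) => o.elim x (Sum.elim v xs)) ∘
            (Sum.elim (fun a => some (Sum.inl a)) (Fin.snoc (fun k => some (Sum.inr k)) none) :
              α ⊕ Fin (l + 1) → Option (α ⊕ Fin l)) := by
        intro v xs x
        funext z
        cases z with
        | inl a => rfl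
        | inr k =>
          refine Fin.lastCases ?_ (fun k => ?_) k
          · simp
          · simp
      have h2 := hy.comp (Sum.elim (fun a => some (Sum.inl a)) (Fin.snoc (fun k => some (Sum.inr k)) none) :
              α ⊕ Fin (l + 1) → Option (α ⊕ Fin l))
      rw [← e1, ← e1] at h2
      exact (hF _ _ _ _ h2).2 (h1 y)
    exact ⟨F, fun v w xs ys h => ⟨key w v ys xs h.symm, key v w xs ys h⟩⟩

end

end Pool.Agent.helper19.IT
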