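import Mathlib
import Pool.Agent.helper19.IT.Defs
import Pool.Agent.helper19.IT.Basic
import Pool.Agent.helper19.IT.LB1

/-!
# MP_669a53_lc : the theory of `ι`-many generic total preorders: facts in arbitrary models
-/

set_option autoImplicit false

namespace Pool.Agent.helper19.IT

open FirstOrder FirstOrder.Language Cardinal

universe u

/-- transfer of universally valid formulas -/
theorem transfer {L : FirstOrder.Language.{u, u}} {A V : Type u} [L.Structure A] [L.Structure V] (h : A ≅[L] V)
    {α : Type} [Finite α] (θ : L.Formula α) (hA : ∀ v : α → A, θ.Realize v) (v : α → V) : θ.Realize v := by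
  let σ : L.Sentence := Formula.iAlls α (θ.relabel Sum.inr : L.Formula (Empty ⊕ α))
  have hσ : A ⊨ σ := by
    change Formula.Realize _ _
    rw [Formula.realize_iAlls]
    intro w
    rw [Formula.realize_relabel]
    exact hA w
  have h1 : V ⊨ σ := (elementarilyEquivalent_iff.1 h σ).1 hσ
  change Formula.Realize _ _ at h1
  rw [Formula.realize_iAlls] at h1
  have h2 := h1 v
  rw [Formula.realize_relabel] at h2
  exact h2

section
variable {ι : Type u}

/-- the formula `x_a ≤_i x_b` -/
def leF {α : Type*} (i : ι) (a b : α) : (LO ι).Formula α :=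
  Relations.formula₂ (L := LO ι) (ORel.le i : ORel ι 2) (Term.var a) (Term.var b)

theorem realize_leF {α : Type*} {V : Type u} [(LO ι).Structure V] (i : ι) (a b : α) (v : α → V) :
    (leF i a b).Realize v ↔ rle i (v a) (v b) := by
  rw [leF]
  exact Formula.realize_rel₂

/-- the formula `x_a = x_b` -/
def eqF {α : Type*} (a b : α) : (LO ι).Formula α := Term.equal (Term.var a) (Term.var b)

theorem realize_eqF {α : Type*} {V : Type u} [(LO ι).Structure V] (a b : α) (v : α → V) :
    (eqF (ι := ι) a b).Realize v ↔ v a = v b := by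
  rw [eqF]
  exact Formula.realize_equal

/-- the formula saying that two tuples satisfy the same atomic formulas in `=` and `≤_i`, `i ∈ F` -/
noncomputable def sameFF (F : Finset ι) (α : Type) [Finite α] : (LO ι).Formula (α ⊕ α) :=
  Formula.iInf (fun p : α × α => (eqF (ι := ι) (Sum.inl p.1 : α ⊕ α) (Sum.inl p.2)).iff
    (eqF (ι := ι) (Sum.inr p.1) (Sum.inr p.2))) ⊓
  Formula.iInf (fun p : F × α × α => (leF (p.1 : ι) (Sum.inl p.2.1 : α ⊕ α) (Sum.inl p.2.2)).iff
    (leF (p.1 : ι) (Sum.inr p.2.1) (Sum.inr p.2.2)))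

theorem realize_sameFF (F : Finset ι) {α : Type} [Finite α] {V : Type u} [(LO ι).Structure V] (v w : α → V) :
    (sameFF F α).Realize (Sum.elim v w) ↔ SameF F v w := by
  rw [sameFF, Formula.realize_inf, Formula.realize_iInf, Formula.realize_iInf]
  constructor
  · rintro ⟨h1, h2⟩ j k
    refine ⟨?_, fun i hi => ?_⟩
    · have := h1 (j, k)
      rw [Formula.realize_iff, realize_eqF, realize_eqF] at this
      exact this
    · have := h2 (⟨i, hi⟩, j, k)
      rw [Formula.realize_iff, realize_leF, realize_leF] at this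
      exact this
  · intro h
    constructor
    · rintro ⟨j, k⟩
      rw [Formula.realize_iff, realize_eqF, realize_eqF]
      exact (h j k).1
    · rintro ⟨⟨i, hi⟩, j, k⟩
      rw [Formula.realize_iff, realize_leF, realize_leF]
      exact (h j k).2 i hi

variable [Infinite ι] {V : Type u} [(LO ι).Structure V]

/-- quantifier elimination in all models -/
theorem qe (hV : Std ι ≅[LO ι] V) {α : Type} [Finite α] (φ : (LO ι).Formula α) :
    ∃ F : Finset ι, ∀ v w : α → V, SameF F v w → (φ.Realize v ↔ φ.Realize w) := by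
  obtain ⟨F, hF⟩ := qe_std (l := 0) φ
  refine ⟨F, fun v w hvw => ?_⟩
  let θ : (LO ι).Formula (α ⊕ α) := (sameFF F α).imp ((φ.relabel Sum.inl).iff (φ.relabel Sum.inr))
  have h1 : ∀ u : α ⊕ α → Std ι, θ.Realize u := by
    intro u
    obtain ⟨v, w, rfl⟩ : ∃ v w, u = Sum.elim v w := ⟨u ∘ Sum.inl, u ∘ Sum.inr, by simp⟩
    rw [Formula.realize_imp, realize_sameFF, Formula.realize_iff, Formula.realize_relabel, Formula.realize_relabel]
    intro h
    have := hF v w default default (by
      rintro (j | j) (k | k)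
      · exact h j k
      · exact k.elim0
      · exact j.elim0
      · exact j.elim0)
    simpa [Formula.Realize] using this
  have h2 := transfer hV θ h1 (Sum.elim v w)
  rw [Formula.realize_imp, realize_sameFF, Formula.realize_iff, Formula.realize_relabel, Formula.realize_relabel] at h2
  exact h2 hvw

omit [Infinite ι] in
theorem rle_total (hV : Std ι ≅[LO ι] V) (i : ι) (x y : V) : rle i x y ∨ rle i y x := by
  have h := transfer hV (leF i (0 : Fin 2) 1 ⊔ leF i (1 : Fin 2) 0) (by
    intro v
    rw [Formula.realize_sup, realize_leF, realize_leF]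
    exact le_total _ _) ![x, y]
  rw [Formula.realize_sup, realize_leF, realize_leF] at h
  exact h

omit [Infinite ι] in
theorem rle_trans (hV : Std ι ≅[LO ι] V) (i : ι) {x y z : V} (h1 : rle i x y) (h2 : rle i y z) : rle i x z := by
  have h := transfer hV ((leF i (0 : Fin 3) 1).imp ((leF i (1 : Fin 3) 2).imp (leF i (0 : Fin 3) 2))) (by
    intro v
    rw [Formula.realize_imp, Formula.realize_imp, realize_leF, realize_leF, realize_leF]
    exact fun h1 h2 => le_trans h1 h2) ![x, y, z]
  rw [Formula.realize_imp, Formula.realize_imp, realize_leF, realize_leF, realize_leF] at h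
  exact h h1 h2

omit [Infinite ι] in
theorem rle_refl (hV : Std ι ≅[LO ι] V) (i : ι) (x : V) : rle i x x := (rle_total hV i x x).elim id id

omit [Infinite ι] in
/-- extension property: independent cuts in finitely many of the orders are realised -/
theorem ext (hV : Std ι ≅[LO ι] V) (F : Finset ι) {α : Type} [Finite α] (a : α → V) (E : ι → Set α)
    (hE : ∀ i ∈ F, ∀ j ∈ E i, ∀ k ∉ E i, ¬ rle i (a k) (a j)) :
    ∃ x : V, ∀ i ∈ F, ∀ j, (j ∈ E i → ¬ rle i x (a j)) ∧ (j ∉ E i → ¬ rle i (a j) x) := by
  classical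
  let θ1 : (LO ι).Formula α := Formula.iInf (fun p : F × α × α =>
    if p.2.1 ∈ E p.1 ∧ p.2.2 ∉ E p.1 then (leF (p.1 : ι) p.2.2 p.2.1).not else ⊤)
  let θ2 : (LO ι).Formula (α ⊕ Fin 1) := Formula.iInf (fun p : F × α =>
    if p.2 ∈ E p.1 then (leF (p.1 : ι) (Sum.inr 0 : α ⊕ Fin 1) (Sum.inl p.2)).not
    else (leF (p.1 : ι) (Sum.inl p.2 : α ⊕ Fin 1) (Sum.inr 0)).not)
  have e1 : ∀ {W : Type u} [(LO ι).Structure W] (v : α → W), θ1.Realize v ↔
      ∀ i ∈ F, ∀ j ∈ E i, ∀ k ∉ E i, ¬ rle i (v k) (v j) := by
    intro W _ v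
    rw [Formula.realize_iInf]
    constructor
    · intro h i hi j hj k hk
      have := h (⟨i, hi⟩, j, k)
      rw [if_pos ⟨hj, hk⟩, Formula.realize_not, realize_leF] at this
      exact this
    · rintro h ⟨⟨i, hi⟩, j, k⟩
      split_ifs with hjk
      · rw [Formula.realize_not, realize_leF]
        exact h i hi j hjk.1 k hjk.2
      · exact BoundedFormula.realize_top.2 trivial
  have e2 : ∀ {W : Type u} [(LO ι).Structure W] (v : α → W) (x : Fin 1 → W), θ2.Realize (Sum.elim v x) ↔
      ∀ i ∈ F, ∀ j, (j ∈ E i → ¬ rle i (x 0) (v j)) ∧ (j ∉ E i → ¬ rle i (v j) (x 0)) := by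
    intro W _ v x
    rw [Formula.realize_iInf]
    constructor
    · intro h i hi j
      have := h (⟨i, hi⟩, j)
      constructor
      · intro hj
        rw [if_pos hj, Formula.realize_not, realize_leF] at this
        exact this
      · intro hj
        rw [if_neg hj, Formula.realize_not, realize_leF] at this
        exact this
    · rintro h ⟨⟨i, hi⟩, j⟩
      split_ifs with hj
      · rw [Formula.realize_not, realize_leF]
        exact (h i hi j).1 hj
      · rw [Formula.realize_not, realize_leF]
        exact (h i hi j).2 hj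
  have h := transfer hV (θ1.imp (Formula.iExs (Fin 1) θ2)) (by
    intro v
    rw [Formula.realize_imp, Formula.realize_iExs, e1]
    intro h
    have := Fintype.ofFinite α
    have hex : ∀ i : ι, i ∈ F → ∃ q : ℚ, ∀ j, (j ∈ E i → co (v j) i < q) ∧ (j ∉ E i → q < co (v j) i) := by
      intro i hi
      obtain ⟨q, h1, h2⟩ := Order.exists_between_finsets
        ((Finset.univ.filter (fun j => j ∈ E i)).image (fun j => co (v j) i))
        ((Finset.univ.filter (fun j => j ∉ E i)).image (fun j => co (v j) i)) (by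
          intro x hx y hy
          obtain ⟨j, hj, rfl⟩ := Finset.mem_image.1 hx
          obtain ⟨k, hk, rfl⟩ := Finset.mem_image.1 hy
          have hj' := (Finset.mem_filter.1 hj).2
          have hk' := (Finset.mem_filter.1 hk).2
          exact not_le.1 (h i hi j hj' k hk'))
      refine ⟨q, fun j => ⟨fun hj => ?_, fun hj => ?_⟩⟩
      · exact h1 _ (Finset.mem_image.2 ⟨j, by simp [hj], rfl⟩)
      · exact h2 _ (Finset.mem_image.2 ⟨j, by simp [hj], rfl⟩)
    choose g hg using hex
    let f : ι → ℚ := fun i => if hi : i ∈ F then g i hi else 0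
    let y : Std ι := Finsupp.onFinset F f (by
      intro i hi
      by_contra h1
      simp [f, h1] at hi)
    have hyF : ∀ i (hi : i ∈ F), co y i = g i hi := by
      intro i hi
      have : co y i = f i := rfl
      simp [this, f, hi]
    refine ⟨fun _ => y, ?_⟩
    rw [e2]
    intro i hi j
    rw [rle_std, rle_std, hyF i hi]
    exact ⟨fun hj => not_le.2 ((hg i hi j).1 hj), fun hj => not_le.2 ((hg i hi j).2 hj)⟩) a
  rw [Formula.realize_imp, Formula.realize_iExs, e1] at h
  obtain ⟨x, hx⟩ := h hE
  rw [e2] at hx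
  exact ⟨x 0, hx⟩

/-- all models are binary -/
theorem binary_LO (hV : Std ι ≅[LO ι] V) : Binary (LO ι) V := by
  classical
  intro n φ
  obtain ⟨F, hF⟩ := qe hV φ
  refine ⟨(Finset.univ.image (fun p : Fin n × Fin n => (p.1, p.2, eqF (ι := ι) (0 : Fin 2) 1))) ∪
    (Finset.univ.image (fun p : F × Fin n × Fin n => (p.2.1, p.2.2, leF (p.1 : ι) (0 : Fin 2) 1))), ?_⟩
  intro a b h
  refine hF a b (fun j k => ⟨?_, fun i hi => ?_⟩)
  · have := h (j, k, eqF (ι := ι) (0 : Fin 2) 1) (Finset.mem_union_left _ (Finset.mem_image.2 ⟨(j, k), Finset.mem_univ _, rfl⟩))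
    rw [realize_eqF, realize_eqF] at this
    exact this
  · have := h (j, k, leF i (0 : Fin 2) 1)
      (Finset.mem_union_right _ (Finset.mem_image.2 ⟨(⟨i, hi⟩, j, k), Finset.mem_univ _, rfl⟩))
    rw [realize_leF, realize_leF] at this
    exact this

end

end Pool.Agent.helper19.IT
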