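import Mathlib
import Pool.Agent.helper19.IT.Defs
import Pool.Agent.helper19.IT.Basic
import Pool.Agent.helper19.IT.LB1
import Pool.Agent.helper19.IT.LB2

/-!
# MP_669a53_lc : the theory of `ι`-many generic total preorders has NIP
-/

set_option autoImplicit false

namespace Pool.Agent.helper19.IT

open FirstOrder FirstOrder.Language Cardinal

universe u

theorem exists_large (D E n : ℕ) : ∃ t : ℕ, (t + n) * D + E < 2 ^ t := by
  let s := 2 * D + n * D + E
  refine ⟨2 * s, ?_⟩
  have h1 : s + 1 ≤ 2 ^ s := Nat.lt_two_pow_self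
  have h2 : (s + 1) * (s + 1) ≤ 2 ^ (2 * s) := by
    rw [two_mul, pow_add]
    exact Nat.mul_le_mul h1 h1
  refine lt_of_lt_of_le ?_ h2
  have h3 : 2 * D ≤ s := by omega
  have h4 : n * D + E ≤ s := by omega
  have h5 : s * (2 * D) ≤ s * s := Nat.mul_le_mul_left s h3
  nlinarith

section
variable {ι : Type u} [Infinite ι] {V : Type u} [(LO ι).Structure V]

omit [Infinite ι] in
/-- the sets of points above `u` are determined by their size -/
theorem up_eq (hV : Std ι ≅[LO ι] V) (i : ι) {P : Type} [Finite P] (a : P → V) (u u' : V)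
    (h : {p | rle i u (a p)}.ncard = {p | rle i u' (a p)}.ncard) : {p | rle i u (a p)} = {p | rle i u' (a p)} := by
  rcases rle_total hV i u u' with h1 | h1
  · symm
    exact Set.eq_of_subset_of_ncard_le (fun p hp => rle_trans hV i h1 hp) h.le (Set.toFinite _)
  · exact Set.eq_of_subset_of_ncard_le (fun p hp => rle_trans hV i h1 hp) h.ge (Set.toFinite _)

omit [Infinite ι] in
/-- the sets of points below `u` are determined by their size -/
theorem down_eq (hV : Std ι ≅[LO ι] V) (i : ι) {P : Type} [Finite P] (a : P → V) (u u' : V)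
    (h : {p | rle i (a p) u}.ncard = {p | rle i (a p) u'}.ncard) : {p | rle i (a p) u} = {p | rle i (a p) u'} := by
  rcases rle_total hV i u u' with h1 | h1
  · exact Set.eq_of_subset_of_ncard_le (fun p hp => rle_trans hV i hp h1) h.ge (Set.toFinite _)
  · symm
    exact Set.eq_of_subset_of_ncard_le (fun p hp => rle_trans hV i hp h1) h.le (Set.toFinite _)

/-- the theory has NIP -/
theorem nip_LO (hV : Std ι ≅[LO ι] V) : NIP (LO ι) V := by
  classical
  intro m n φ
  obtain ⟨F, hF⟩ := qe hV φ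
  obtain ⟨t, ht⟩ := exists_large (2 * (m * F.card) + m) (m * m + m * m * F.card) n
  refine ⟨2 ^ t, ?_⟩
  rintro ⟨a, ha⟩
  choose b hb using ha
  let P := Fin (2 ^ t) × Fin n
  let a' : P → V := fun p => a p.1 p.2
  have hlt : ∀ s : Set P, s.ncard < Nat.card P + 1 := fun s =>
    Nat.lt_succ_of_le (Set.ncard_le_card s)
  let T := (F → Fin m → Fin (Nat.card P + 1)) × (F → Fin m → Fin (Nat.card P + 1)) × (Fin m → Option P) ×
    (Fin m → Fin m → Prop) × (F → Fin m → Fin m → Prop)
  let dat : (Fin m → V) → T := fun b =>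
    ⟨fun i j => ⟨{p | rle (i : ι) (b j) (a' p)}.ncard, hlt _⟩, fun i j => ⟨{p | rle (i : ι) (a' p) (b j)}.ncard, hlt _⟩,
      fun j => if h : ∃ p, a' p = b j then some h.choose else none, fun j k => b j = b k,
      fun i j k => rle (i : ι) (b j) (b k)⟩
  have hdat : ∀ b b' : Fin m → V, dat b = dat b' → ∀ l, SameF F (Sum.elim b (a l)) (Sum.elim b' (a l)) := by
    intro b b' h l
    have e1 : ∀ i ∈ F, ∀ j, {p | rle i (b j) (a' p)} = {p | rle i (b' j) (a' p)} := by
      intro i hi j
      refine up_eq hV i a' _ _ ?_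
      have := congrArg (fun z => (z.1 ⟨i, hi⟩ j : ℕ)) h
      exact this
    have e2 : ∀ i ∈ F, ∀ j, {p | rle i (a' p) (b j)} = {p | rle i (a' p) (b' j)} := by
      intro i hi j
      refine down_eq hV i a' _ _ ?_
      have := congrArg (fun z => (z.2.1 ⟨i, hi⟩ j : ℕ)) h
      exact this
    have e3 : ∀ j p, a' p = b j ↔ a' p = b' j := by
      intro j p
      have h3 : (if h : ∃ p, a' p = b j then some h.choose else none) =
          (if h : ∃ p, a' p = b' j then some h.choose else none) := congrArg (fun z => z.2.2.1 j) h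
      by_cases h1 : ∃ p, a' p = b j
      · by_cases h2 : ∃ p, a' p = b' j
        · rw [dif_pos h1, dif_pos h2, Option.some_inj] at h3
          have h4 := h1.choose_spec
          have h5 := h2.choose_spec
          rw [← h4, ← h5, h3]
        · rw [dif_pos h1, dif_neg h2] at h3
          exact absurd h3 (by simp)
      · by_cases h2 : ∃ p, a' p = b' j
        · rw [dif_neg h1, dif_pos h2] at h3
          exact absurd h3 (by simp)
        · exact iff_of_false (fun e => h1 ⟨p, e⟩) (fun e => h2 ⟨p, e⟩)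
    have e4 : ∀ j k, (b j = b k) = (b' j = b' k) := by
      intro j k
      exact congrArg (fun z => z.2.2.2.1 j k) h
    have e5 : ∀ i ∈ F, ∀ j k, (rle i (b j) (b k)) = (rle i (b' j) (b' k)) := by
      intro i hi j k
      exact congrArg (fun z => z.2.2.2.2 ⟨i, hi⟩ j k) h
    rintro (j | j) (k | k)
    · exact ⟨iff_of_eq (e4 j k), fun i hi => iff_of_eq (e5 i hi j k)⟩
    · refine ⟨?_, fun i hi => ?_⟩
      · have := e3 j (l, k)
        exact ⟨fun h => (this.1 h.symm).symm, fun h => (this.2 h.symm).symm⟩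
      · have := Set.ext_iff.1 (e1 i hi j) (l, k)
        exact this
    · refine ⟨?_, fun i hi => ?_⟩
      · exact e3 k (l, j)
      · have := Set.ext_iff.1 (e2 i hi k) (l, j)
        exact this
    · exact ⟨Iff.rfl, fun i hi => Iff.rfl⟩
  have hinj : Function.Injective (fun s : Set (Fin (2 ^ t)) => dat (b s)) := by
    intro s s' h
    ext l
    rw [← hb s l, ← hb s' l]
    exact hF _ _ (hdat _ _ h l)
  have hcard := Nat.card_le_card_of_injective _ hinj
  have h1 : Nat.card (Set (Fin (2 ^ t))) = 2 ^ (2 ^ t) := by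
    simp [Nat.card_eq_fintype_card]
  have hP : Nat.card P = 2 ^ t * n := by
    simp [P, Nat.card_eq_fintype_card]
  have h2 : Nat.card T = ((2 ^ t * n + 1) ^ m) ^ F.card * (((2 ^ t * n + 1) ^ m) ^ F.card *
      ((2 ^ t * n + 1) ^ m * (((2 ^ m) ^ m) * ((2 ^ m) ^ m) ^ F.card))) := by
    have : Nat.card P = 2 ^ t * n := hP
    simp only [T, Nat.card_prod, Nat.card_fun, Nat.card_eq_fintype_card (α := Fin _), Fintype.card_fin,
      Nat.card_eq_fintype_card (α := Prop), Fintype.card_prop, Nat.card_eq_fintype_card (α := F), Fintype.card_coe,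
      Finite.card_option, hP]
  rw [h1, h2] at hcard
  have h3 : 2 ^ t * n + 1 ≤ 2 ^ (t + n) := by
    have h4 : n + 1 ≤ 2 ^ n := Nat.lt_two_pow_self
    have h5 : 1 ≤ 2 ^ t := Nat.one_le_two_pow
    calc 2 ^ t * n + 1 ≤ 2 ^ t * n + 2 ^ t := by omega
      _ = 2 ^ t * (n + 1) := by ring
      _ ≤ 2 ^ t * 2 ^ n := Nat.mul_le_mul_left _ h4
      _ = 2 ^ (t + n) := (pow_add _ _ _).symm
  have h6 : ((2 ^ t * n + 1) ^ m) ^ F.card * (((2 ^ t * n + 1) ^ m) ^ F.card *
      ((2 ^ t * n + 1) ^ m * (((2 ^ m) ^ m) * ((2 ^ m) ^ m) ^ F.card))) ≤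
      2 ^ ((t + n) * (2 * (m * F.card) + m) + (m * m + m * m * F.card)) := by
    calc ((2 ^ t * n + 1) ^ m) ^ F.card * (((2 ^ t * n + 1) ^ m) ^ F.card *
        ((2 ^ t * n + 1) ^ m * (((2 ^ m) ^ m) * ((2 ^ m) ^ m) ^ F.card)))
        ≤ ((2 ^ (t + n)) ^ m) ^ F.card * (((2 ^ (t + n)) ^ m) ^ F.card *
        ((2 ^ (t + n)) ^ m * (((2 ^ m) ^ m) * ((2 ^ m) ^ m) ^ F.card))) := by gcongr
      _ = 2 ^ ((t + n) * (2 * (m * F.card) + m) + (m * m + m * m * F.card)) := by
        rw [← pow_mul, ← pow_mul, ← pow_mul, ← pow_mul, ← pow_mul, ← pow_add, ← pow_add, ← pow_add, ← pow_add]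
        congr 1
        ring
  have h7 := hcard.trans h6
  have h8 := (Nat.pow_le_pow_iff_right (by norm_num : 1 < 2)).1 h7
  omega

end

end Pool.Agent.helper19.IT
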