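import Mathlib
import Pool.Agent.helper19.IT.Defs
import Pool.Agent.helper19.IT.Basic
import Pool.Agent.helper19.IT.LB1
import Pool.Agent.helper19.IT.LB2

/-!
# MP_669a53_lc : the types given by a cut in each of the orders
-/

set_option autoImplicit false

namespace Pool.Agent.helper19.IT

open FirstOrder FirstOrder.Language Cardinal

universe u

section
variable {ι : Type u} {V : Type u} [(LO ι).Structure V]

/-- `D i` is an initial segment of `≤_i` -/
def Init (D : ι → Set V) : Prop := ∀ i, ∀ u ∈ D i, ∀ v ∉ D i, ¬ rle i v u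

/-- `x` lies in the cut `D i` for all `i ∈ F`, as far as the points in `A` can tell -/
def Cut (D : ι → Set V) (F : Finset ι) (A : Set V) (x : V) : Prop :=
  ∀ i ∈ F, ∀ u ∈ A, (u ∈ D i → ¬ rle i x u) ∧ (u ∉ D i → ¬ rle i u x)

theorem Cut.mono {D : ι → Set V} {F G : Finset ι} {A B : Set V} {x : V} (h : Cut D G B x) (hF : F ⊆ G) (hA : A ⊆ B) :
    Cut D F A x := fun i hi u hu => h i (hF hi) u (hA hu)

theorem exists_cut (hV : Std ι ≅[LO ι] V) {D : ι → Set V} (hD : Init D) (F : Finset ι) (A : Finset V) :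
    ∃ x, Cut D F (A : Set V) x := by
  obtain ⟨x, hx⟩ := ext hV F (fun j : Fin A.card => (A.equivFin.symm j : V))
    (fun i => {j | (A.equivFin.symm j : V) ∈ D i}) (by
      intro i _ j hj k hk
      exact hD i _ hj _ hk)
  refine ⟨x, fun i hi u hu => ?_⟩
  have h := hx i hi (A.equivFin ⟨u, hu⟩)
  simpa using h

/-- two tuples of the same kind followed by realisations of the cuts -/
theorem same_cut (hV : Std ι ≅[LO ι] V) {D : ι → Set V} {F : Finset ι} (hF : F.Nonempty) {m : ℕ} (b b' : Fin m → V)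
    (hb : SameF F b b') (hD : ∀ i ∈ F, ∀ j, b j ∈ D i ↔ b' j ∈ D i) (x x' : Fin 1 → V)
    (hx : Cut D F (Set.range b) (x 0)) (hx' : Cut D F (Set.range b') (x' 0)) :
    SameF F (Sum.elim b x) (Sum.elim b' x') := by
  obtain ⟨i₀, hi₀⟩ := hF
  have ne : ∀ (b : Fin m → V) (x : Fin 1 → V), Cut D F (Set.range b) (x 0) → ∀ j, b j ≠ x 0 := by
    intro b x hx j hj
    have h := hx i₀ hi₀ (b j) ⟨j, rfl⟩
    by_cases h1 : b j ∈ D i₀
    · exact h.1 h1 (by rw [hj]; exact rle_refl hV _ _)
    · exact h.2 h1 (by rw [hj]; exact rle_refl hV _ _)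
  have r1 : ∀ (b : Fin m → V) (x : Fin 1 → V), Cut D F (Set.range b) (x 0) → ∀ i ∈ F, ∀ j,
      (rle i (b j) (x 0) ↔ b j ∈ D i) ∧ (rle i (x 0) (b j) ↔ b j ∉ D i) := by
    intro b x hx i hi j
    have h := hx i hi (b j) ⟨j, rfl⟩
    by_cases h1 : b j ∈ D i
    · have h2 := h.1 h1
      exact ⟨iff_of_true ((rle_total hV i _ _).resolve_right h2) h1, iff_of_false h2 (fun e => e h1)⟩
    · have h2 := h.2 h1
      exact ⟨iff_of_false h2 h1, iff_of_true ((rle_total hV i _ _).resolve_left h2) h1⟩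
  rintro (j | j) (k | k)
  · exact hb j k
  · have : k = 0 := Subsingleton.elim _ _
    subst this
    refine ⟨iff_of_false (ne b x hx j) (ne b' x' hx' j), fun i hi => ?_⟩
    exact ((r1 b x hx i hi j).1.trans (hD i hi j)).trans (r1 b' x' hx' i hi j).1.symm
  · have : j = 0 := Subsingleton.elim _ _
    subst this
    refine ⟨iff_of_false (fun e => ne b x hx k e.symm) (fun e => ne b' x' hx' k e.symm), fun i hi => ?_⟩
    exact ((r1 b x hx i hi k).2.trans (not_congr (hD i hi k))).trans (r1 b' x' hx' i hi k).2.symm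
  · have e1 : j = 0 := Subsingleton.elim _ _
    have e2 : k = 0 := Subsingleton.elim _ _
    subst e1; subst e2
    exact ⟨iff_of_true rfl rfl, fun i hi => iff_of_true (rle_refl hV _ _) (rle_refl hV _ _)⟩

variable [Infinite ι]

/-- the truth value of `φ(b; x)` is constant on the realisations of the cuts -/
theorem exists_F (hV : Std ι ≅[LO ι] V) (D : ι → Set V) {m : ℕ} (φ : (LO ι).Formula (Fin m ⊕ Fin 1)) :
    ∃ F : Finset ι, ∀ b b' : Fin m → V, SameF F b b' → (∀ i ∈ F, ∀ j, b j ∈ D i ↔ b' j ∈ D i) → ∀ x x' : Fin 1 → V,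
      Cut D F (Set.range b) (x 0) → Cut D F (Set.range b') (x' 0) →
      (φ.Realize (Sum.elim b x) ↔ φ.Realize (Sum.elim b' x')) := by
  classical
  obtain ⟨F, hF⟩ := qe hV φ
  obtain ⟨i₀⟩ : Nonempty ι := inferInstance
  refine ⟨insert i₀ F, fun b b' hb hD x x' hx hx' => hF _ _ ?_⟩
  exact (same_cut hV ⟨i₀, Finset.mem_insert_self _ _⟩ b b' hb hD x x' hx hx').mono (Finset.subset_insert _ _)

/-- the complete type of an element which lies in the cut `D i` of `≤_i`, for all `i` -/
noncomputable def cutType (hV : Std ι ≅[LO ι] V) (D : ι → Set V) (hD : Init D) : GType (LO ι) V 1 where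
  carrier := {φ | ∃ (F : Finset ι) (A : Finset V), ∀ a : Fin 1 → V, Cut D F (A : Set V) (a 0) →
    φ.Realize (Sum.elim id a)}
  finSat := by
    classical
    intro s hs
    have h : ∃ (F : Finset ι) (A : Finset V), ∀ a : Fin 1 → V, Cut D F (A : Set V) (a 0) → ∀ φ ∈ s,
        φ.Realize (Sum.elim id a) := by
      induction s using Finset.induction_on with
      | empty => exact ⟨∅, ∅, fun a _ φ hφ => absurd hφ (Finset.notMem_empty _)⟩
      | insert φ s _ ih =>
        obtain ⟨F, A, h1⟩ := ih (fun ψ hψ => hs ψ (Finset.mem_insert_of_mem hψ))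
        obtain ⟨F', A', h2⟩ := hs φ (Finset.mem_insert_self _ _)
        refine ⟨F ∪ F', A ∪ A', fun a ha ψ hψ => ?_⟩
        rcases Finset.mem_insert.1 hψ with rfl | h3
        · exact h2 a (ha.mono Finset.subset_union_right (by simp))
        · exact h1 a (ha.mono Finset.subset_union_left (by simp)) ψ h3
    obtain ⟨F, A, h1⟩ := h
    obtain ⟨x, hx⟩ := exists_cut hV hD F A
    exact ⟨fun _ => x, h1 (fun _ => x) hx⟩
  total := by
    classical
    intro φ
    obtain ⟨m, φ0, b, hb⟩ := exists_inst φ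
    obtain ⟨F, hF⟩ := exists_F hV D φ0
    obtain ⟨x, hx⟩ := exists_cut hV hD F (Finset.univ.image b)
    have hr : ((Finset.univ.image b : Finset V) : Set V) = Set.range b := by simp
    by_cases h : φ.Realize (Sum.elim id (fun _ : Fin 1 => x))
    · left
      refine ⟨F, Finset.univ.image b, fun a ha => ?_⟩
      rw [hb, realize_inst] at h ⊢
      rw [hr] at hx ha
      exact (hF b b (fun j k => ⟨Iff.rfl, fun _ _ => Iff.rfl⟩) (fun _ _ _ => Iff.rfl) (fun _ => x) a hx ha).1 h
    · right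
      refine ⟨F, Finset.univ.image b, fun a ha => ?_⟩
      rw [Formula.realize_not]
      rw [hb, realize_inst] at h ⊢
      rw [hr] at hx ha
      exact fun h' => h ((hF b b (fun j k => ⟨Iff.rfl, fun _ _ => Iff.rfl⟩) (fun _ _ _ => Iff.rfl)
        (fun _ => x) a hx ha).2 h')

theorem mem_cutType (hV : Std ι ≅[LO ι] V) (D : ι → Set V) (hD : Init D) (φ : (LO ι).Formula (V ⊕ Fin 1)) :
    φ ∈ (cutType hV D hD).carrier ↔ ∃ (F : Finset ι) (A : Finset V), ∀ a : Fin 1 → V, Cut D F (A : Set V) (a 0) →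
      φ.Realize (Sum.elim id a) := Iff.rfl

/-- membership of an instance in the cut type -/
theorem inst_mem_cutType (hV : Std ι ≅[LO ι] V) (D : ι → Set V) (hD : Init D) {m : ℕ}
    (φ : (LO ι).Formula (Fin m ⊕ Fin 1)) : ∃ F : Finset ι, ∀ b : Fin m → V, ∀ x : Fin 1 → V,
      Cut D F (Set.range b) (x 0) → (inst φ b ∈ (cutType hV D hD).carrier ↔ φ.Realize (Sum.elim b x)) := by
  classical
  obtain ⟨F, hF⟩ := exists_F hV D φ
  refine ⟨F, fun b x hx => ?_⟩
  constructor
  · rintro ⟨F', A', h⟩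
    obtain ⟨y, hy⟩ := exists_cut hV hD (F ∪ F') (Finset.univ.image b ∪ A')
    have h1 := h (fun _ => y) (hy.mono Finset.subset_union_right (by simp))
    rw [realize_inst] at h1
    refine (hF b b (fun j k => ⟨Iff.rfl, fun _ _ => Iff.rfl⟩) (fun _ _ _ => Iff.rfl) (fun _ => y) x ?_ hx).1 h1
    exact hy.mono Finset.subset_union_left (by simp)
  · intro h
    refine ⟨F, Finset.univ.image b, fun a ha => ?_⟩
    rw [realize_inst]
    exact (hF b b (fun j k => ⟨Iff.rfl, fun _ _ => Iff.rfl⟩) (fun _ _ _ => Iff.rfl) x a hx (by simpa using ha)).1 h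

/-- the cut type is invariant over `M` if membership in the cuts depends only on the type over `M` -/
theorem cutType_invariant (hV : Std ι ≅[LO ι] V) (D : ι → Set V) (hD : Init D) (M : Set V)
    (hM : ∀ i u u', SameType (LO ι) M (fun _ : Fin 1 => u) (fun _ : Fin 1 => u') → u ∈ D i → u' ∈ D i) :
    (cutType hV D hD).Invariant M := by
  classical
  have sym : ∀ {k : ℕ} {b b' : Fin k → V}, SameType (LO ι) M b b' → SameType (LO ι) M b' b :=
    fun h ψ => (h ψ).symm
  intro m φ b b' hbb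
  have hone : ∀ (b b' : Fin m → V), SameType (LO ι) M b b' → ∀ j, SameType (LO ι) M (fun _ : Fin 1 => b j)
      (fun _ : Fin 1 => b' j) := by
    intro b b' hbb j ψ
    have h1 := hbb (ψ.relabel (Sum.map id (fun _ => j)))
    rw [Formula.realize_relabel, Formula.realize_relabel] at h1
    have h2 : ∀ v : Fin m → V, (Sum.elim (fun c : M => (c : V)) v ∘ Sum.map id (fun _ : Fin 1 => j)) =
        Sum.elim (fun c : M => (c : V)) (fun _ => v j) := by
      intro v; funext z; cases z <;> rfl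
    rwa [h2, h2] at h1
  have hDD : ∀ i j, b j ∈ D i ↔ b' j ∈ D i := fun i j =>
    ⟨hM i _ _ (hone b b' hbb j), hM i _ _ (hone b' b (sym hbb) j)⟩
  have hS : ∀ F : Finset ι, SameF F b b' := by
    intro F j k
    constructor
    · have := hbb (eqF (ι := ι) (Sum.inr j : M ⊕ Fin m) (Sum.inr k))
      rw [realize_eqF, realize_eqF] at this
      exact this
    · intro i _
      have := hbb (leF i (Sum.inr j : M ⊕ Fin m) (Sum.inr k))
      rw [realize_leF, realize_leF] at this
      exact this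
  obtain ⟨F1, hF1⟩ := inst_mem_cutType hV D hD φ
  obtain ⟨F2, hF2⟩ := exists_F hV D φ
  obtain ⟨x, hx⟩ := exists_cut hV hD (F1 ∪ F2) (Finset.univ.image b)
  obtain ⟨x', hx'⟩ := exists_cut hV hD (F1 ∪ F2) (Finset.univ.image b')
  rw [hF1 b (fun _ => x) (hx.mono Finset.subset_union_left (by simp)),
    hF1 b' (fun _ => x') (hx'.mono Finset.subset_union_left (by simp))]
  exact hF2 b b' (hS F2) (fun i _ j => hDD i j) _ _ (hx.mono Finset.subset_union_right (by simp))
    (hx'.mono Finset.subset_union_right (by simp))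

/-! ### the cuts at `o` -/

/-- the cut of `≤_i` at `o`: for `i ∈ S` the type says `x` is just above `o` in `U`, for `i ∉ S` it says that `x` is
below all `m ∈ M` above `o` and above all other points below these -/
def DS (M : Set V) (o : V) (S : Set ι) (i : ι) : Set V :=
  {u | rle i u o ∨ (i ∉ S ∧ ∀ m ∈ M, ¬ rle i m o → ¬ rle i m u)}

omit [Infinite ι] in
theorem init_DS (hV : Std ι ≅[LO ι] V) (M : Set V) (o : V) (S : Set ι) : Init (DS M o S) := by
  intro i u hu v hv hvu
  simp only [DS, Set.mem_ofPred_eq, not_or, not_and, not_forall, not_not] at hu hv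
  rcases hu with h | ⟨h1, h2⟩
  · exact hv.1 (rle_trans hV i hvu h)
  · obtain ⟨m, hm, hmo, hmv⟩ := hv.2 h1
    exact h2 m hm hmo (rle_trans hV i hmv hvu)

omit [Infinite ι] in
theorem DS_sameType (M : Set V) (o : V) (ho : o ∈ M) (S : Set ι) (i : ι) (u u' : V)
    (h : SameType (LO ι) M (fun _ : Fin 1 => u) (fun _ : Fin 1 => u')) (hu : u ∈ DS M o S i) : u' ∈ DS M o S i := by
  have h1 := h (leF i (Sum.inr 0 : M ⊕ Fin 1) (Sum.inl ⟨o, ho⟩))
  rw [realize_leF, realize_leF] at h1
  have h1' : rle i u o ↔ rle i u' o := h1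
  have h2 : ∀ m ∈ M, rle i m u ↔ rle i m u' := by
    intro m hm
    have h1 := h (leF i (Sum.inl ⟨m, hm⟩ : M ⊕ Fin 1) (Sum.inr 0))
    rw [realize_leF, realize_leF] at h1
    exact h1
  rcases hu with h3 | ⟨h3, h4⟩
  · exact Or.inl (h1'.1 h3)
  · exact Or.inr ⟨h3, fun m hm hmo h5 => h4 m hm hmo ((h2 m hm).2 h5)⟩

/-- the type `p_S` -/
noncomputable def pS (hV : Std ι ≅[LO ι] V) (M : Set V) (o : V) (S : Set ι) : GType (LO ι) V 1 :=
  cutType hV (DS M o S) (init_DS hV M o S)

theorem pS_invariant (hV : Std ι ≅[LO ι] V) (M : Set V) (o : V) (ho : o ∈ M) (S : Set ι) :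
    (pS hV M o S).Invariant M :=
  cutType_invariant hV _ _ M (fun i u u' h hu => DS_sameType M o ho S i u u' h hu)

end

end Pool.Agent.helper19.IT
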