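import Mathlib
import Pool.Agent.helper19.IT.Defs
import Pool.Agent.helper19.IT.Basic
import Pool.Agent.helper19.IT.LB1
import Pool.Agent.helper19.IT.LB2
import Pool.Agent.helper19.IT.LB4

/-!
# MP_669a53_lc : the fibre of `F_M` over the coheir just above `o` has size at least `2^|ι|`
-/

set_option autoImplicit false

namespace Pool.Agent.helper19.IT

open FirstOrder FirstOrder.Language Cardinal

universe u

/-- formulas over `A` are instances of formulas without parameters -/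
theorem exists_inst_over {L : FirstOrder.Language.{u, u}} {U : Type u} [L.Structure U] {n : ℕ} {A : Set U}
    (φ : L.Formula (A ⊕ Fin n)) : ∃ (m : ℕ) (φ0 : L.Formula (Fin m ⊕ Fin n)) (b : Fin m → U),
    (∀ j, b j ∈ A) ∧ ∀ a : Fin n → U, (lift φ).Realize (Sum.elim id a) ↔ (inst φ0 b).Realize (Sum.elim id a) := by
  classical
  let B : Finset A := φ.freeVarFinset.preimage Sum.inl (Sum.inl_injective.injOn)
  let e := B.equivFin
  have hB : ∀ u : A, (Sum.inl u : A ⊕ Fin n) ∈ φ.freeVarFinset → u ∈ B := by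
    intro u hu
    simpa [B] using hu
  let f : φ.freeVarFinset → Fin B.card ⊕ Fin n := fun v => match hv : v.1 with
    | Sum.inl u => Sum.inl (e ⟨u, hB u (hv ▸ v.2)⟩)
    | Sum.inr i => Sum.inr i
  refine ⟨B.card, φ.restrictFreeVar f, fun i => ((e.symm i : A) : U), fun j => (e.symm j : A).2, ?_⟩
  intro a
  rw [realize_inst, realize_lift]
  symm
  refine BoundedFormula.realize_restrictFreeVar (Sum.elim (fun c : A => (c : U)) a) ?_
  intro v
  obtain ⟨v, hv⟩ := v
  cases v with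
  | inl u => simp [f]
  | inr i => simp [f]

/-- the symbol `P` -/
def relP (ι : Type u) : ((LO ι).sum LP.{u}).Relations 1 := Sum.inr PRel.P

/-- the symbol `≤_i` in the language `L_P` -/
def relLe {ι : Type u} (i : ι) : ((LO ι).sum LP.{u}).Relations 2 := Sum.inl (ORel.le i)

section
variable {ι : Type u} {V : Type u} [(LO ι).Structure V]

theorem rle_sub (M : (LO ι).ElementarySubstructure V) (i : ι) (x y : M) : rle i x y ↔ rle i (x : V) (y : V) := by
  have h := M.subtype.map_rel (ORel.le i : ORel ι 2) ![x, y]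
  have e : (M.subtype ∘ ![x, y] : Fin 2 → V) = ![(x : V), (y : V)] := by
    funext k; fin_cases k <;> rfl
  rw [e] at h
  exact h.symm

/-- points of `M` just above `o` -/
theorem exists_above (M : (LO ι).ElementarySubstructure V) (hM : Std ι ≅[LO ι] M) (F : Finset ι) (o : V) (ho : o ∈ M)
    (A : Finset M) : ∃ x ∈ M, ∀ i ∈ F, ¬ rle i x o ∧ ∀ m ∈ A, ¬ rle i (m : V) o → ¬ rle i (m : V) x := by
  classical
  let o' : M := ⟨o, ho⟩
  let B : Finset M := insert o' A
  obtain ⟨x, hx⟩ := ext hM F (fun j : Fin B.card => (B.equivFin.symm j : M))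
    (fun i => {j | rle i (B.equivFin.symm j : M) o'}) (by
      intro i _ j hj k hk h
      exact hk (rle_trans hM i h hj))
  have hx' : ∀ i ∈ F, ∀ m ∈ B, (rle i m o' → ¬ rle i x m) ∧ (¬ rle i m o' → ¬ rle i m x) := by
    intro i hi m hm
    have h := hx i hi (B.equivFin ⟨m, hm⟩)
    simpa using h
  refine ⟨x, x.2, fun i hi => ⟨?_, fun m hm hmo => ?_⟩⟩
  · have := (hx' i hi o' (Finset.mem_insert_self _ _)).1 (rle_refl hM i o')
    rw [rle_sub] at this
    exact this
  · have h1 := (hx' i hi m (Finset.mem_insert_of_mem hm)).2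
    rw [rle_sub, rle_sub] at h1
    exact h1 hmo

variable [Infinite ι]

/-- `p_∅` is finitely satisfiable in `M` -/
theorem pS_finSat (hV : Std ι ≅[LO ι] V) (M : (LO ι).ElementarySubstructure V) (o : V) (ho : o ∈ M) :
    (pS hV (M : Set V) o ∅).FinSatIn (M : Set V) := by
  classical
  rintro ψ ⟨F, A, h⟩
  have hex : ∀ i : ι, ∀ u : V, ∃ m : M, u ∉ DS (M : Set V) o ∅ i → ¬ rle i (m : V) o ∧ rle i (m : V) u := by
    intro i u
    by_cases hu : u ∈ DS (M : Set V) o ∅ i
    · exact ⟨⟨o, ho⟩, fun h => absurd hu h⟩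
    · have hu' := hu
      simp only [DS, Set.mem_ofPred_eq, not_or, not_and, not_forall, not_not] at hu'
      obtain ⟨m, hm, h1, h2⟩ := hu'.2 (Set.notMem_empty i)
      exact ⟨⟨m, hm⟩, fun _ => ⟨h1, h2⟩⟩
  choose g hg using hex
  obtain ⟨x, hxM, hx⟩ := exists_above M (hV.trans M.elementarilyEquivalent.symm) F o ho
    ((F ×ˢ A).image (fun p => g p.1 p.2))
  refine ⟨fun _ => x, fun _ => hxM, h _ (fun i hi u hu => ⟨fun huD => ?_, fun huD => ?_⟩)⟩
  · rcases huD with h1 | ⟨_, h2⟩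
    · exact fun h3 => (hx i hi).1 (rle_trans hV i h3 h1)
    · exact h2 x hxM (hx i hi).1
  · obtain ⟨h1, h2⟩ := hg i u huD
    have h3 := (hx i hi).2 (g i u) (Finset.mem_image.2 ⟨(i, u), Finset.mem_product.2 ⟨hi, hu⟩, rfl⟩) h1
    exact fun h4 => h3 (rle_trans hV i h2 h4)

omit [Infinite ι] in
/-- transfer along `(M', M) ≺ (N', N)` -/
theorem aux_lift {M M' N' N : (LO ι).ElementarySubstructure V} (hA : Aux (LO ι) V M M' N' N) (i : ι) (o c : M')
    (h : ∀ m ∈ M, ¬ rle i m (o : V) → ¬ rle i m (c : V)) :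
    ∀ a ∈ N, ¬ rle i a (o : V) → ¬ rle i a (c : V) := by
  classical
  let θ : ((LO ι).sum LP.{u}).Formula (Fin 2 ⊕ Fin 1) :=
    (Relations.formula₁ (relP ι) (Term.var (Sum.inr 0))).imp
      ((Relations.formula₂ (relLe i) (Term.var (Sum.inr 0))
        (Term.var (Sum.inl 0))).not.imp
      (Relations.formula₂ (relLe i) (Term.var (Sum.inr 0))
        (Term.var (Sum.inl 1))).not)
  let ψ : ((LO ι).sum LP.{u}).Formula (Fin 2) := Formula.iAlls (Fin 1) θ
  have e : ∀ (W : (LO ι).ElementarySubstructure V) (P : Set W) (v : Fin 2 → W),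
      @Formula.Realize ((LO ι).sum LP.{u}) W (pairStr (LO ι) W P) (Fin 2) ψ v ↔
      ∀ x : W, x ∈ P → ¬ rle i (x : V) (v 0 : V) → ¬ rle i (x : V) (v 1 : V) := by
    intro W P v
    let _ := pairStr (LO ι) W P
    have h1 : ∀ x : Fin 1 → W, θ.Realize (Sum.elim v x) ↔
        (x 0 ∈ P → ¬ rle i (x 0 : V) (v 0 : V) → ¬ rle i (x 0 : V) (v 1 : V)) := by
      intro x
      rw [Formula.realize_imp, Formula.realize_imp, Formula.realize_not, Formula.realize_not, Formula.realize_rel₁,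
        Formula.realize_rel₂, Formula.realize_rel₂, ← rle_sub, ← rle_sub]
      exact Iff.rfl
    rw [Formula.realize_iAlls]
    constructor
    · intro h2 x
      exact (h1 (fun _ => x)).1 (h2 _)
    · intro h2 x
      exact (h1 x).2 (h2 (x 0))
  have h1 := (e M' {x | (x : V) ∈ M} ![o, c]).2 (fun x hx hxo => h x hx hxo)
  have h2 := (hA.elem 2 ψ ![o, c]).1 h1
  have h3 := (e N' {x | (x : V) ∈ N} _).1 h2
  intro a ha hao
  exact h3 ⟨a, hA.leN ha⟩ ha hao

/-- `F_M(p_S) = p_∅` -/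
theorem pS_FEq (hV : Std ι ≅[LO ι] V) {M M' N' N : (LO ι).ElementarySubstructure V} (hA : Aux (LO ι) V M M' N' N)
    (o : V) (ho : o ∈ M) (S : Set ι) : FEq M M' N (pS hV (M : Set V) o S) (pS hV (M : Set V) o ∅) := by
  classical
  refine ⟨pS_finSat hV M o ho, fun φ hφ => ?_⟩
  obtain ⟨m, φ0, b, hbM, hb⟩ := exists_inst_over φ
  have hφ' : inst φ0 b ∈ (pS hV (M : Set V) o ∅).carrier := ((pS hV (M : Set V) o ∅).mem_congr hb).1 hφ
  obtain ⟨F, hF⟩ := inst_mem_cutType hV (DS (M : Set V) o ∅) (init_DS hV _ _ _) φ0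
  have hMN : ∀ x, x ∈ M → x ∈ N := hA.MN
  let oN : (N : Set V) := ⟨o, hMN o ho⟩
  have hex : ∀ i : ι, ∀ j : Fin m, ∃ c : M, (∃ m' : M, ¬ rle i (m' : V) o ∧ rle i (m' : V) (b j)) →
      (¬ rle i (c : V) o ∧ rle i (c : V) (b j)) := by
    intro i j
    by_cases h : ∃ m' : M, ¬ rle i (m' : V) o ∧ rle i (m' : V) (b j)
    · obtain ⟨c, hc⟩ := h
      exact ⟨c, fun _ => hc⟩
    · exact ⟨⟨o, ho⟩, fun h' => absurd h' h⟩
  choose c hc using hex
  let θ : (LO ι).Formula ((N : Set V) ⊕ Fin 1) := Formula.iInf (fun p : F × Fin m =>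
    if ∃ m' : M, ¬ rle (p.1 : ι) (m' : V) o ∧ rle (p.1 : ι) (m' : V) (b p.2) then
      (leF (p.1 : ι) (Sum.inl ⟨(c p.1 p.2 : V), hMN _ (c p.1 p.2).2⟩ : (N : Set V) ⊕ Fin 1) (Sum.inr 0)).not
    else (leF (p.1 : ι) (Sum.inr 0 : (N : Set V) ⊕ Fin 1) (Sum.inl oN)).not)
  have hθ : ∀ a : Fin 1 → V, (lift θ).Realize (Sum.elim id a) ↔ ∀ i ∈ F, ∀ j : Fin m,
      if ∃ m' : M, ¬ rle i (m' : V) o ∧ rle i (m' : V) (b j) then ¬ rle i (c i j : V) (a 0)
      else ¬ rle i (a 0) o := by
    intro a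
    rw [realize_lift, Formula.realize_iInf]
    constructor
    · intro h i hi j
      have h1 := h (⟨i, hi⟩, j)
      by_cases h2 : ∃ m' : M, ¬ rle i (m' : V) o ∧ rle i (m' : V) (b j)
      · rw [if_pos h2, Formula.realize_not, realize_leF] at h1
        rw [if_pos h2]
        exact h1
      · rw [if_neg h2, Formula.realize_not, realize_leF] at h1
        rw [if_neg h2]
        exact h1
    · rintro h ⟨⟨i, hi⟩, j⟩
      have h1 := h i hi j
      by_cases h2 : ∃ m' : M, ¬ rle i (m' : V) o ∧ rle i (m' : V) (b j)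
      · rw [if_pos h2] at h1
        rw [if_pos h2, Formula.realize_not, realize_leF]
        exact h1
      · rw [if_neg h2] at h1
        rw [if_neg h2, Formula.realize_not, realize_leF]
        exact h1
  refine ⟨θ, ?_, ?_⟩
  · -- `θ ∈ p_S`
    refine ⟨F, insert o ((F ×ˢ Finset.univ).image (fun p : ι × Fin m => (c p.1 p.2 : V))), fun a ha => ?_⟩
    rw [hθ]
    intro i hi j
    split_ifs with h2
    · obtain ⟨h3, h4⟩ := hc i j h2
      refine (ha i hi (c i j : V) ?_).2 ?_
      · simp only [Finset.coe_insert, Set.mem_insert_iff, Finset.mem_coe]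
        right
        exact Finset.mem_image.2 ⟨(i, j), Finset.mem_product.2 ⟨hi, Finset.mem_univ _⟩, rfl⟩
      · rintro (h5 | ⟨_, h5⟩)
        · exact h3 h5
        · exact h5 (c i j : V) (c i j).2 h3 (rle_refl hV i _)
    · refine (ha i hi o (by simp)).1 (Or.inl (rle_refl hV i o))
  · -- `θ` implies `φ` on `N`
    intro a haN hθa
    rw [hθ] at hθa
    rw [hb, realize_inst]
    refine (hF b a ?_).1 hφ'
    rintro i hi u ⟨j, rfl⟩
    have h1 := hθa i hi j
    by_cases h2 : ∃ m' : M, ¬ rle i (m' : V) o ∧ rle i (m' : V) (b j)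
    · rw [if_pos h2] at h1
      obtain ⟨h3, h4⟩ := hc i j h2
      have h5 : ¬ rle i (b j) (a 0) := fun h6 => h1 (rle_trans hV i h4 h6)
      refine ⟨fun h7 => ?_, fun _ => h5⟩
      exfalso
      rcases h7 with h8 | ⟨_, h8⟩
      · exact h3 (rle_trans hV i h4 h8)
      · exact h8 (c i j : V) (c i j).2 h3 h4
    · rw [if_neg h2] at h1
      have h3 : ∀ m' ∈ M, ¬ rle i m' o → ¬ rle i m' (b j) := by
        intro m' hm' h4 h5
        exact h2 ⟨⟨m', hm'⟩, h4, h5⟩
      have h4 := aux_lift hA i ⟨o, hA.le ho⟩ ⟨b j, hbM j⟩ h3 (a 0) (haN 0) h1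
      refine ⟨fun _ => h4, fun h7 => ?_⟩
      exact absurd (Or.inr ⟨Set.notMem_empty i, h3⟩) h7

/-- in `U` there are points infinitely close to `o` -/
theorem exists_infinitesimal (hV : Std ι ≅[LO ι] V) (M : (LO ι).ElementarySubstructure V)
    (hU : Saturated (LO ι) V (Order.succ (max ℵ₀ (Cardinal.mk M)))) (o : V) (ho : o ∈ M) (i : ι) :
    ∃ u : V, ¬ rle i u o ∧ ∀ m ∈ M, ¬ rle i m o → ¬ rle i m u := by
  classical
  have hex := pS_finSat hV M o ho
  obtain ⟨x, hx⟩ := (pS hV (M : Set V) o ∅).exists_realizes hU (M : Set V) (Order.lt_succ_of_le (le_max_right _ _))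
  refine ⟨x 0, ?_, ?_⟩
  · have h1 : lift ((leF i (Sum.inr 0 : (M : Set V) ⊕ Fin 1) (Sum.inl ⟨o, ho⟩)).not) ∈
        (pS hV (M : Set V) o ∅).carrier := by
      refine ⟨{i}, {o}, fun a ha => ?_⟩
      rw [realize_lift, Formula.realize_not, realize_leF]
      exact (ha i (by simp) o (by simp)).1 (Or.inl (rle_refl hV i o))
    have h2 := hx _ h1
    rw [Formula.realize_not, realize_leF] at h2
    exact h2
  · intro m hm hmo
    have h1 : lift ((leF i (Sum.inl ⟨m, hm⟩ : (M : Set V) ⊕ Fin 1) (Sum.inr 0)).not) ∈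
        (pS hV (M : Set V) o ∅).carrier := by
      refine ⟨{i}, {m}, fun a ha => ?_⟩
      rw [realize_lift, Formula.realize_not, realize_leF]
      refine (ha i (by simp) m (by simp)).2 ?_
      rintro (h5 | ⟨_, h5⟩)
      · exact hmo h5
      · exact h5 m hm hmo (rle_refl hV i _)
    have h2 := hx _ h1
    rw [Formula.realize_not, realize_leF] at h2
    exact h2

/-- the types `p_S` are distinct -/
theorem pS_injective (hV : Std ι ≅[LO ι] V) (M : (LO ι).ElementarySubstructure V)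
    (hU : Saturated (LO ι) V (Order.succ (max ℵ₀ (Cardinal.mk M)))) (o : V) (ho : o ∈ M) :
    Function.Injective (pS hV (M : Set V) o) := by
  classical
  have key : ∀ S S' : Set ι, pS hV (M : Set V) o S = pS hV (M : Set V) o S' → S ⊆ S' := by
    intro S S' h i hi
    by_contra hi'
    obtain ⟨u, hu1, hu2⟩ := exists_infinitesimal hV M hU o ho i
    have h1 : (leF i (Sum.inl u : V ⊕ Fin 1) (Sum.inr 0)).not ∈ (pS hV (M : Set V) o S).carrier := by
      refine ⟨{i}, {u}, fun a ha => ?_⟩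
      rw [Formula.realize_not, realize_leF]
      refine (ha i (by simp) u (by simp)).2 ?_
      rintro (h5 | ⟨h5, _⟩)
      · exact hu1 h5
      · exact h5 hi
    have h2 : (leF i (Sum.inr 0 : V ⊕ Fin 1) (Sum.inl u)).not ∈ (pS hV (M : Set V) o S').carrier := by
      refine ⟨{i}, {u}, fun a ha => ?_⟩
      rw [Formula.realize_not, realize_leF]
      exact (ha i (by simp) u (by simp)).1 (Or.inr ⟨hi', hu2⟩)
    rw [h] at h1
    obtain ⟨a, ha⟩ := (pS hV (M : Set V) o S').finSat {(leF i (Sum.inl u : V ⊕ Fin 1) (Sum.inr 0)).not,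
      (leF i (Sum.inr 0 : V ⊕ Fin 1) (Sum.inl u)).not} (by
        intro ψ hψ
        simp only [Finset.mem_insert, Finset.mem_singleton] at hψ
        rcases hψ with rfl | rfl
        · exact h1
        · exact h2)
    have h3 := ha _ (Finset.mem_insert_self _ _)
    have h4 := ha _ (Finset.mem_insert_of_mem (Finset.mem_singleton_self _))
    rw [Formula.realize_not, realize_leF] at h3 h4
    exact (rle_total hV i _ _).elim h3 h4
  intro S S' h
  exact Set.Subset.antisymm (key S S' h) (key S' S h.symm)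

/-- the lower bound -/
theorem fiber_ge (hV : Std ι ≅[LO ι] V) (M : (LO ι).ElementarySubstructure V)
    (hU : Saturated (LO ι) V (Order.succ (max ℵ₀ (Cardinal.mk M)))) (o : V) (ho : o ∈ M)
    (M' N' N : (LO ι).ElementarySubstructure V) (hA : Aux (LO ι) V M M' N' N) :
    2 ^ Cardinal.mk ι ≤ Cardinal.mk (Fiber M M' N (pS hV (M : Set V) o ∅)) := by
  rw [← Cardinal.mk_set]
  refine Cardinal.mk_le_of_injective (f := fun S : Set ι => (⟨pS hV (M : Set V) o S,
    pS_invariant hV (M : Set V) o ho S, pS_FEq hV hA o ho S⟩ : Fiber M M' N (pS hV (M : Set V) o ∅))) ?_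
  intro S S' h
  exact pS_injective hV M hU o ho (congrArg Subtype.val h)

end

end Pool.Agent.helper19.IT
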