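import Mathlib
import Pool.Agent.helper19.IT.Defs
import Pool.Agent.helper39.IT.OneStep

/-!
# saturated elementary extensions: one step with a cardinality bound
-/

set_option autoImplicit false

namespace Pool.Agent.helper19.IT

open FirstOrder FirstOrder.Language Cardinal

universe u

/-- `W` realises all sets of formulas with at most `|K|` parameters in `P` -/
def SatStep (L : FirstOrder.Language.{u, u}) (K P W : Type u) [L.Structure P] [L.Structure W] (f : P → W) : Prop :=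
  ∀ (n : ℕ) (e : K → P) (Γ : Set (L.Formula (K ⊕ Fin n))),
    (∀ s : Finset (L.Formula (K ⊕ Fin n)), (∀ φ ∈ s, φ ∈ Γ) → ∃ a : Fin n → P, ∀ φ ∈ s, φ.Realize (Sum.elim e a)) →
    ∃ a : Fin n → W, ∀ φ ∈ Γ, φ.Realize (Sum.elim (f ∘ e) a)

section
variable {L : FirstOrder.Language.{u, u}}

theorem exists_satStep (K P : Type u) [L.Structure P] [Nonempty P] :
    ∃ (W : Type u) (_ : L.Structure W) (f : P ↪ₑ[L] W), SatStep L K P W f := by
  classical
  obtain ⟨W, _, f, h⟩ := Pool.Agent.helper39.IT.exists_step L P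
  refine ⟨W, inferInstance, f, fun n e Γ hΓ => ?_⟩
  obtain ⟨a, ha⟩ := h n ((fun φ : L.Formula (K ⊕ Fin n) => φ.relabel (Sum.map e id)) '' Γ) (by
    intro s hs
    choose! g hg1 hg2 using fun φ (hφ : φ ∈ s) => hs hφ
    obtain ⟨a, ha⟩ := hΓ (s.image g) (by
      intro φ hφ
      obtain ⟨ψ, hψ, rfl⟩ := Finset.mem_image.1 hφ
      exact hg1 ψ hψ)
    refine ⟨a, fun φ hφ => ?_⟩
    have h1 := ha (g φ) (Finset.mem_image_of_mem _ hφ)
    rw [← hg2 φ hφ]
    simp only
    rw [Formula.realize_relabel]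
    have : (Sum.elim id a ∘ Sum.map e id : K ⊕ Fin n → P) = Sum.elim e a := by
      funext z; cases z <;> rfl
    rw [this]
    exact h1)
  refine ⟨a, fun φ hφ => ?_⟩
  have h1 := ha _ (Set.mem_image_of_mem _ hφ)
  rw [Formula.realize_relabel] at h1
  have : (Sum.elim f a ∘ Sum.map e id : K ⊕ Fin n → W) = Sum.elim (f ∘ e) a := by
    funext z; cases z <;> rfl
  rwa [this] at h1

/-- one step with a cardinality bound -/
theorem exists_satStep_small (K P : Type u) [L.Structure P] [Nonempty P] (hK : ℵ₀ ≤ Cardinal.mk K)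
    (hL : L.card ≤ Cardinal.mk K) (hP : Cardinal.mk P ≤ 2 ^ Cardinal.mk K) :
    ∃ (W : Type u) (_ : L.Structure W) (f : P ↪ₑ[L] W), Cardinal.mk W ≤ 2 ^ Cardinal.mk K ∧ SatStep L K P W f := by
  classical
  obtain ⟨W, _, f, h⟩ := exists_satStep (L := L) K P
  by_cases hW : Cardinal.mk W ≤ 2 ^ Cardinal.mk K
  · exact ⟨W, inferInstance, f, hW, h⟩
  · push Not at hW
    -- choose realisations
    let T := Σ n : ℕ, (K → P) × Set (L.Formula (K ⊕ Fin n))
    have hex : ∀ t : T, ∃ a : Fin t.1 → W,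
        (∀ s : Finset (L.Formula (K ⊕ Fin t.1)), (∀ φ ∈ s, φ ∈ t.2.2) →
          ∃ a : Fin t.1 → P, ∀ φ ∈ s, φ.Realize (Sum.elim t.2.1 a)) →
        ∀ φ ∈ t.2.2, φ.Realize (Sum.elim (f ∘ t.2.1) a) := by
      intro t
      by_cases h1 : (∀ s : Finset (L.Formula (K ⊕ Fin t.1)), (∀ φ ∈ s, φ ∈ t.2.2) →
          ∃ a : Fin t.1 → P, ∀ φ ∈ s, φ.Realize (Sum.elim t.2.1 a))
      · obtain ⟨a, ha⟩ := h t.1 t.2.1 t.2.2 h1
        exact ⟨a, fun _ => ha⟩
      · exact ⟨fun _ => f (Classical.arbitrary P), fun h2 => absurd h2 h1⟩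
    choose r hr using hex
    let s : Set W := Set.range f ∪ ⋃ t : T, Set.range (r t)
    have hK2 : ℵ₀ ≤ 2 ^ Cardinal.mk K := hK.trans (Cardinal.cantor _).le
    have hF : ∀ n : ℕ, Cardinal.mk (L.Formula (K ⊕ Fin n)) ≤ Cardinal.mk K := by
      intro n
      have h4 : Function.Injective (fun φ : L.Formula (K ⊕ Fin n) =>
          (⟨0, φ⟩ : Σ k, L.BoundedFormula (K ⊕ Fin n) k)) := by
        intro a b h
        simpa using h
      have h5 := Cardinal.mk_le_of_injective h4
      refine h5.trans (BoundedFormula.card_le.trans ?_)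
      simp only [Cardinal.lift_id, Cardinal.mk_sum, Cardinal.mk_fin, Cardinal.lift_natCast]
      have h6 : (n : Cardinal.{u}) ≤ Cardinal.mk K := ((Cardinal.natCast_lt_aleph0 (n := n)).le).trans hK
      refine max_le hK ?_
      refine (add_le_max _ _).trans (max_le (max_le ?_ ?_) hK)
      · refine (add_le_max _ _).trans (max_le (max_le (by simp) h6) hK)
      · simpa using hL
    have hT : Cardinal.mk T ≤ 2 ^ Cardinal.mk K := by
      have : Cardinal.mk T = Cardinal.sum (fun n : ℕ => Cardinal.mk ((K → P) × Set (L.Formula (K ⊕ Fin n)))) :=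
        Cardinal.mk_sigma _
      rw [this]
      refine (Cardinal.sum_le_lift_mk_mul_iSup _).trans ?_
      simp only [Cardinal.mk_nat, Cardinal.lift_aleph0]
      refine (mul_le_mul' hK2 (ciSup_le' (fun n => ?_))).trans (Cardinal.mul_eq_self hK2).le
      rw [Cardinal.mk_prod, Cardinal.mk_set]
      simp only [Cardinal.lift_id]
      refine (mul_le_mul' ?_ (Cardinal.power_le_power_left two_ne_zero (hF n))).trans (Cardinal.mul_eq_self hK2).le
      rw [← Cardinal.power_def]
      refine (Cardinal.power_le_power_right hP).trans ?_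
      rw [← Cardinal.power_mul, Cardinal.mul_eq_self hK]
    have hs : Cardinal.mk s ≤ 2 ^ Cardinal.mk K := by
      refine (Cardinal.mk_union_le _ _).trans ((add_le_max _ _).trans (max_le (max_le ?_ ?_) hK2))
      · exact Cardinal.mk_range_le.trans hP
      · refine (Cardinal.mk_iUnion_le _).trans ?_
        refine (mul_le_mul' hT (ciSup_le' (fun t => ?_))).trans (Cardinal.mul_eq_self hK2).le
        exact ((Set.finite_range (r t)).lt_aleph0.le).trans hK2
    obtain ⟨S, hS1, hS2⟩ := exists_elementarySubstructure_card_eq L s (2 ^ Cardinal.mk K) hK2 (by simpa using hs)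
      (by simpa using hL.trans (Cardinal.cantor _).le) (by simpa using hW.le)
    have hfS : ∀ p, f p ∈ S := fun p => hS1 (Or.inl ⟨p, rfl⟩)
    refine ⟨S, inferInstance, ⟨fun p => ⟨f p, hfS p⟩, ?_⟩, ?_, ?_⟩
    · intro n φ x
      have h1 := S.subtype.map_formula φ ((fun p => (⟨f p, hfS p⟩ : S)) ∘ x)
      rw [← h1]
      exact f.map_formula φ x
    · simpa using hS2.le
    · intro n e Γ hΓ
      have h1 := hr ⟨n, e, Γ⟩ hΓ
      have h2 : ∀ i, r ⟨n, e, Γ⟩ i ∈ S := fun i => hS1 (Or.inr (Set.mem_iUnion.2 ⟨⟨n, e, Γ⟩, i, rfl⟩))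
      refine ⟨fun i => ⟨r ⟨n, e, Γ⟩ i, h2 i⟩, fun φ hφ => ?_⟩
      rw [← S.subtype.map_formula φ]
      have h3 : (S.subtype ∘ Sum.elim ((fun p => (⟨f p, hfS p⟩ : S)) ∘ e) (fun i => ⟨r ⟨n, e, Γ⟩ i, h2 i⟩) :
          K ⊕ Fin n → W) = Sum.elim (f ∘ e) (r ⟨n, e, Γ⟩) := by
        funext z; cases z <;> rfl
      have h4 := h1 φ hφ
      simp only at h4
      rw [← h3] at h4
      exact h4

end

end Pool.Agent.helper19.IT
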