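import Mathlib
import Pool.Agent.helper19.IT.Defs
import Pool.Agent.helper19.IT.Sat1
import Pool.Agent.helper39.IT.Chain

/-!
# saturated elementary extensions: the transfinite iteration
-/

set_option autoImplicit false

namespace Pool.Agent.helper19.IT

open FirstOrder FirstOrder.Language Cardinal

universe u

section
variable {L : FirstOrder.Language.{u, u}} {X : Type u}

/-- a structure on a subset of `X` -/
structure Pt (L : FirstOrder.Language.{u, u}) (X : Type u) : Type u where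
  S : Set X
  str : L.Structure S

instance (P : Pt L X) : L.Structure P.S := P.str

/-- elementary extension -/
def Pt.le (P Q : Pt L X) : Prop := ∃ f : P.S ↪ₑ[L] Q.S, ∀ x, (f x : X) = x

/-- elementary extension realising types -/
def Pt.step (K : Type u) (P Q : Pt L X) : Prop := ∃ f : P.S ↪ₑ[L] Q.S, (∀ x, (f x : X) = x) ∧ SatStep L K P.S Q.S f

theorem Pt.step.le {K : Type u} {P Q : Pt L X} (h : Pt.step K P Q) : P.le Q := by
  obtain ⟨f, h1, _⟩ := h
  exact ⟨f, h1⟩

theorem Pt.le_refl (P : Pt L X) : P.le P := ⟨ElementaryEmbedding.refl L P.S, fun _ => rfl⟩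

theorem Pt.le_trans {P Q R : Pt L X} (h1 : P.le Q) (h2 : Q.le R) : P.le R := by
  obtain ⟨f, hf⟩ := h1
  obtain ⟨g, hg⟩ := h2
  exact ⟨g.comp f, fun x => (hg (f x)).trans (hf x)⟩

/-- copy an extension of a structure on a subset of `X` into `X` -/
theorem Pt.transport (P : Pt L X) (W : Type u) [L.Structure W] (f : P.S ↪ₑ[L] W) (μ : Cardinal.{u}) (hμ : ℵ₀ ≤ μ)
    (hX : μ < Cardinal.mk X) (hW : Cardinal.mk W ≤ μ) : ∃ (Q : Pt L X) (g : W ↪ₑ[L] Q.S),
      Cardinal.mk Q.S ≤ μ ∧ ∀ p, (g (f p) : X) = p := by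
  classical
  have hXi : Infinite X := Cardinal.infinite_iff.2 (hμ.trans hX.le)
  have hPμ : Cardinal.mk P.S ≤ μ := (Cardinal.mk_le_of_injective f.injective).trans hW
  have hc : Cardinal.mk ((P.S)ᶜ : Set X) = Cardinal.mk X := Cardinal.mk_compl_of_infinite _ (hPμ.trans_lt hX)
  obtain ⟨k⟩ : Nonempty (W ↪ ((P.S)ᶜ : Set X)) := by
    rw [← Cardinal.le_def, hc]
    exact hW.trans hX.le
  let j : W → X := fun w => if h : ∃ p, f p = w then (h.choose : X) else (k w : X)
  have hj1 : ∀ p, j (f p) = p := by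
    intro p
    have h : ∃ p', f p' = f p := ⟨p, rfl⟩
    simp only [j, dif_pos h]
    exact congrArg Subtype.val (f.injective h.choose_spec)
  have hj : Function.Injective j := by
    intro w w' hww
    by_cases h : ∃ p, f p = w
    · obtain ⟨p, rfl⟩ := h
      rw [hj1] at hww
      by_cases h' : ∃ p, f p = w'
      · obtain ⟨p', rfl⟩ := h'
        rw [hj1] at hww
        rw [Subtype.ext hww]
      · simp only [j, dif_neg h'] at hww
        exact absurd p.2 (hww ▸ (k w').2)
    · by_cases h' : ∃ p, f p = w'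
      · obtain ⟨p', rfl⟩ := h'
        rw [hj1] at hww
        simp only [j, dif_neg h] at hww
        exact absurd p'.2 (hww ▸ (k w).2)
      · simp only [j, dif_neg h, dif_neg h'] at hww
        exact k.injective (Subtype.ext hww)
  let e : W ≃ Set.range j := Equiv.ofInjective j hj
  let _ : L.Structure (Set.range j) := e.inducedStructure
  let g : W ≃[L] (Set.range j) := e.inducedStructureEquiv
  let g' : W ↪ₑ[L] (Set.range j) := g.toElementaryEmbedding
  refine ⟨⟨Set.range j, e.inducedStructure⟩, g', ?_, fun p => ?_⟩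
  · exact Cardinal.mk_range_le.trans hW
  · exact hj1 p

/-- the successor step -/
theorem Pt.exists_step (K : Type u) (hK : ℵ₀ ≤ Cardinal.mk K) (hL : L.card ≤ Cardinal.mk K)
    (hX : 2 ^ Cardinal.mk K < Cardinal.mk X) (P : Pt L X) (hP : P.S.Nonempty)
    (hPc : Cardinal.mk P.S ≤ 2 ^ Cardinal.mk K) : ∃ Q : Pt L X, Cardinal.mk Q.S ≤ 2 ^ Cardinal.mk K ∧ Pt.step K P Q := by
  have : Nonempty P.S := hP.to_subtype
  obtain ⟨W, _, f, hW, h⟩ := exists_satStep_small (L := L) K P.S hK hL hPc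
  obtain ⟨Q, g, hQ, hg⟩ := P.transport W f _ (hK.trans (Cardinal.cantor _).le) hX hW
  refine ⟨Q, hQ, g.comp f, hg, fun n e Γ hΓ => ?_⟩
  obtain ⟨a, ha⟩ := h n e Γ hΓ
  refine ⟨g ∘ a, fun φ hφ => ?_⟩
  have h1 := (g.map_formula φ _).2 (ha φ hφ)
  have h2 : (g ∘ Sum.elim (f ∘ e) a : K ⊕ Fin n → Q.S) = Sum.elim ((g.comp f) ∘ e) (g ∘ a) := by
    funext z; cases z <;> rfl
  rwa [h2] at h1

/-- transfinite iteration in a preorder -/
theorem iterate {P : Type*} (le : P → P → Prop) (hrefl : ∀ p, le p p) (htrans : ∀ p q r, le p q → le q r → le p r)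
    {I : Type*} [LinearOrder I] [WellFoundedLT I] (good : P → Prop) (p₀ : P) (sc : P → P)
    (hsc : ∀ p, good p → good (sc p) ∧ le p (sc p))
    (hlim : ∀ (α : I) (y : Set.Iio α → P), (∀ β, good (y β) ∧ le p₀ (y β)) → (∀ β γ, β ≤ γ → le (y β) (y γ)) →
      ∃ q, good q ∧ le p₀ q ∧ ∀ β, le (y β) q) :
    ∃ x : I → P, ∀ α, good (x α) ∧ le p₀ (x α) ∧ ∀ β < α, le (sc (x β)) (x α) := by
  classical
  let F : (α : I) → ((β : I) → β < α → P) → P := fun α rec =>
    if h : ∃ q, good q ∧ le p₀ q ∧ ∀ β (hβ : β < α), le (sc (rec β hβ)) q then h.choose else p₀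
  let x : I → P := wellFounded_lt.fix F
  have hx : ∀ α, x α = F α (fun β _ => x β) := fun α => wellFounded_lt.fix_eq F α
  refine ⟨x, fun α => ?_⟩
  induction α using WellFoundedLT.induction with
  | ind α ih =>
    have h : ∃ q, good q ∧ le p₀ q ∧ ∀ β (hβ : β < α), le (sc (x β)) q := by
      obtain ⟨q, h1, h2, h3⟩ := hlim α (fun β => sc (x β)) (fun β => by
        obtain ⟨h1, h2, _⟩ := ih β β.2
        exact ⟨(hsc _ h1).1, htrans _ _ _ h2 (hsc _ h1).2⟩) (fun β γ hβγ => by
        rcases eq_or_lt_of_le hβγ with h | h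
        · rw [h]; exact hrefl _
        · obtain ⟨h1, _, h3⟩ := ih γ γ.2
          exact htrans _ _ _ (h3 β h) (hsc _ h1).2)
      exact ⟨q, h1, h2, fun β hβ => h3 ⟨β, hβ⟩⟩
    have h1 : x α = h.choose := by
      rw [hx]
      exact dif_pos h
    rw [h1]
    exact h.choose_spec

/-- finite satisfiability goes down along elementary maps -/
theorem finSat_down {K P W : Type u} [L.Structure P] [L.Structure W] (f : P ↪ₑ[L] W) {n : ℕ} (e : K → P)
    (s : Finset (L.Formula (K ⊕ Fin n))) (h : ∃ a : Fin n → W, ∀ φ ∈ s, φ.Realize (Sum.elim (f ∘ e) a)) :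
    ∃ a : Fin n → P, ∀ φ ∈ s, φ.Realize (Sum.elim e a) := by
  classical
  let θ : L.Formula K := Formula.iExs (Fin n) (Formula.iInf (fun φ : s => (φ : L.Formula (K ⊕ Fin n))))
  have h1 : θ.Realize (f ∘ e) := by
    rw [Formula.realize_iExs]
    obtain ⟨a, ha⟩ := h
    refine ⟨a, ?_⟩
    rw [Formula.realize_iInf]
    exact fun φ => ha φ φ.2
  rw [f.map_formula, Formula.realize_iExs] at h1
  obtain ⟨a, ha⟩ := h1
  rw [Formula.realize_iInf] at ha
  exact ⟨a, fun φ hφ => ha ⟨φ, hφ⟩⟩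

end

end Pool.Agent.helper19.IT
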