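import Mathlib
import Pool.Agent.helper19.IT.Defs
import Pool.Agent.helper19.IT.Sat1
import Pool.Agent.helper19.IT.Sat2

/-!
# saturated elementary extensions exist
-/

set_option autoImplicit false

namespace Pool.Agent.helper19.IT

open FirstOrder FirstOrder.Language Cardinal

universe u

/-- small subsets of a well-order of type `κ⁺` are bounded -/
theorem bounded_of_card_le {I : Type u} [LinearOrder I] (κ : Cardinal.{u}) (hκ : ℵ₀ ≤ κ) (hI : κ < Cardinal.mk I)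
    (hi : ∀ a : I, Cardinal.mk (Set.Iio a) ≤ κ) (S : Set I) (hS : Cardinal.mk S ≤ κ) : ∃ a, ∀ b ∈ S, b < a := by
  classical
  by_contra h
  push Not at h
  have h1 : (Set.univ : Set I) ⊆ ⋃ b : S, Set.Iic (b : I) := by
    intro a _
    obtain ⟨b, hb, hab⟩ := h a
    exact Set.mem_iUnion.2 ⟨⟨b, hb⟩, hab⟩
  have h2 : Cardinal.mk I ≤ κ := by
    rw [← Cardinal.mk_univ]
    refine (Cardinal.mk_le_mk_of_subset h1).trans ((Cardinal.mk_iUnion_le _).trans ?_)
    refine (mul_le_mul' hS (ciSup_le' (fun b => ?_))).trans (Cardinal.mul_eq_self hκ).le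
    have h3 : Set.Iic (b : I) = Set.Iio (b : I) ∪ {(b : I)} := by
      ext x; simp [le_iff_lt_or_eq]
    rw [h3]
    refine (Cardinal.mk_union_le _ _).trans ((add_le_max _ _).trans (max_le (max_le (hi b) ?_) hκ))
    rw [Cardinal.mk_singleton]
    exact Cardinal.one_le_aleph0.trans hκ
  exact absurd hI (not_lt.2 h2)

/-- Every structure has a `κ`-saturated elementary extension. -/
theorem exists_saturated (L : FirstOrder.Language.{u, u}) (V : Type u) [L.Structure V] [Nonempty V]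
    (κ : Cardinal.{u}) : ∃ (W : Type u) (_ : L.Structure W), Nonempty (V ↪ₑ[L] W) ∧ Saturated L W κ := by
  classical
  let κ₁ : Cardinal.{u} := max (max κ ℵ₀) (max L.card (Cardinal.mk V))
  have hκ1 : κ ≤ κ₁ := (le_max_left _ _).trans (le_max_left _ _)
  have hκ2 : ℵ₀ ≤ κ₁ := (le_max_right _ _).trans (le_max_left _ _)
  have hκ3 : L.card ≤ κ₁ := (le_max_left _ _).trans (le_max_right _ _)
  have hκ4 : Cardinal.mk V ≤ κ₁ := (le_max_right _ _).trans (le_max_right _ _)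
  obtain ⟨K, hK⟩ : ∃ K : Type u, Cardinal.mk K = κ₁ := ⟨κ₁.out, κ₁.mk_out⟩
  obtain ⟨X, hX⟩ : ∃ X : Type u, Cardinal.mk X = Order.succ (2 ^ κ₁) := ⟨_, Cardinal.mk_out _⟩
  have hμ : κ₁ ≤ 2 ^ κ₁ := (Cardinal.cantor _).le
  have hμ0 : ℵ₀ ≤ 2 ^ κ₁ := hκ2.trans hμ
  have hXμ : 2 ^ κ₁ < Cardinal.mk X := by rw [hX]; exact Order.lt_succ _
  let I : Type u := (Order.succ κ₁).ord.ToType
  have hI : κ₁ < Cardinal.mk I := by
    rw [Cardinal.mk_ord_toType]
    exact Order.lt_succ _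
  have hi : ∀ a : I, Cardinal.mk (Set.Iio a) ≤ κ₁ := fun a =>
    Order.lt_succ_iff.1 (Cardinal.mk_Iio_ord_toType a)
  have hIne : Nonempty I := by
    rw [← Cardinal.mk_ne_zero_iff]
    exact (lt_of_le_of_lt zero_le hI).ne'
  -- the starting point
  obtain ⟨j⟩ : Nonempty (V ↪ X) := by
    rw [← Cardinal.le_def]
    exact (hκ4.trans hμ).trans hXμ.le
  let ej : V ≃ Set.range j := Equiv.ofInjective j j.injective
  obtain ⟨p₀, hp₀, g₀, -⟩ : ∃ p₀ : Pt L X, p₀.S = Set.range j ∧ ∃ _ : V ↪ₑ[L] p₀.S, True := by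
    let _ : L.Structure (Set.range j) := ej.inducedStructure
    let g : V ≃[L] (Set.range j) := ej.inducedStructureEquiv
    let g' : V ↪ₑ[L] (Set.range j) := g.toElementaryEmbedding
    exact ⟨⟨Set.range j, ej.inducedStructure⟩, rfl, g', trivial⟩
  let good : Pt L X → Prop := fun P => P.S.Nonempty ∧ Cardinal.mk P.S ≤ 2 ^ κ₁
  have hgood₀ : good p₀ := by
    refine ⟨?_, ?_⟩
    · rw [hp₀]
      obtain ⟨v⟩ := (inferInstance : Nonempty V)
      exact ⟨j v, v, rfl⟩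
    · rw [hp₀]
      exact Cardinal.mk_range_le.trans (hκ4.trans hμ)
  have hstep : ∀ P : Pt L X, ∃ Q : Pt L X, good P → good Q ∧ Pt.step K P Q := by
    intro P
    by_cases hP : good P
    · obtain ⟨Q, h1, h2⟩ := Pt.exists_step (L := L) K (hK ▸ hκ2) (hK ▸ hκ3) (hK ▸ hXμ) P hP.1 (hK ▸ hP.2)
      refine ⟨Q, fun _ => ⟨⟨?_, hK ▸ h1⟩, h2⟩⟩
      obtain ⟨f, hf⟩ := h2.le
      obtain ⟨x, hx⟩ := hP.1
      exact ⟨f ⟨x, hx⟩, (f ⟨x, hx⟩).2⟩
    · exact ⟨P, fun h => absurd h hP⟩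
  choose sc hsc using hstep
  obtain ⟨x, hx⟩ := iterate (I := I) Pt.le Pt.le_refl (fun _ _ _ => Pt.le_trans) good p₀ sc
    (fun p hp => ⟨(hsc p hp).1, (hsc p hp).2.le⟩) (by
      intro α y hy hmono
      by_cases hα : Nonempty (Set.Iio α)
      · have hS : Monotone (fun β : Set.Iio α => (y β).S) := by
          intro β γ hβγ z hz
          obtain ⟨f, hf⟩ := hmono β γ hβγ
          have := (f ⟨z, hz⟩).2
          rw [hf] at this
          exact this
        obtain ⟨str, hstr⟩ := Pool.Agent.helper39.IT.exists_union (L := L) (fun β : Set.Iio α => (y β).S) hS hmono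
        obtain ⟨q, hqS, hq⟩ : ∃ q : Pt L X, q.S = (⋃ β : Set.Iio α, (y β).S) ∧ ∀ β, (y β).le q :=
          ⟨⟨_, str⟩, rfl, hstr⟩
        obtain ⟨β₀⟩ := hα
        refine ⟨q, ⟨?_, ?_⟩, Pt.le_trans (hy β₀).2 (hq β₀), hq⟩
        · obtain ⟨z, hz⟩ := (hy β₀).1.1
          exact ⟨z, hqS ▸ Set.mem_iUnion.2 ⟨β₀, hz⟩⟩
        · rw [hqS]
          refine (Cardinal.mk_iUnion_le _).trans ?_
          exact (mul_le_mul' ((hi α).trans hμ) (ciSup_le' (fun β => (hy β).1.2))).trans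
            (Cardinal.mul_eq_self hμ0).le
      · exact ⟨p₀, hgood₀, Pt.le_refl _, fun β => absurd ⟨β⟩ hα⟩)
  have hxle : ∀ α β, α ≤ β → (x α).le (x β) := by
    intro α β h
    rcases eq_or_lt_of_le h with h | h
    · rw [h]; exact Pt.le_refl _
    · exact Pt.le_trans (hsc _ (hx α).1).2.le ((hx β).2.2 α h)
  have hS : Monotone (fun α : I => (x α).S) := by
    intro β γ hβγ z hz
    obtain ⟨f, hf⟩ := hxle β γ hβγ
    have := (f ⟨z, hz⟩).2
    rw [hf] at this
    exact this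
  obtain ⟨str, hstr⟩ := Pool.Agent.helper39.IT.exists_union (L := L) (fun α : I => (x α).S) hS hxle
  obtain ⟨W, hWS, hW⟩ : ∃ W : Pt L X, W.S = (⋃ α : I, (x α).S) ∧ ∀ α, (x α).le W := ⟨⟨_, str⟩, rfl, hstr⟩
  refine ⟨W.S, W.str, ?_, ?_⟩
  · obtain ⟨α⟩ := hIne
    obtain ⟨f, -⟩ := Pt.le_trans (hx α).2.1 (hW α)
    exact ⟨f.comp g₀⟩
  · intro A hA n Γ hΓ
    have hmem : ∀ c : A, ∃ α : I, ((c : W.S) : X) ∈ (x α).S := fun c =>
      Set.mem_iUnion.1 (hWS ▸ (c : W.S).2)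
    choose α hα using hmem
    obtain ⟨β, hβ⟩ := bounded_of_card_le κ₁ hκ2 hI hi (Set.range α)
      (Cardinal.mk_range_le.trans (hA.le.trans hκ1))
    obtain ⟨γ, hγ⟩ := bounded_of_card_le κ₁ hκ2 hI hi {β} (by
      rw [Cardinal.mk_singleton]
      exact Cardinal.one_le_aleph0.trans hκ2)
    have hβγ : β < γ := hγ β rfl
    have hAβ : ∀ c : A, ((c : W.S) : X) ∈ (x β).S := fun c => hS (hβ _ ⟨c, rfl⟩).le (hα c)
    obtain ⟨f, hf⟩ := hW β
    obtain ⟨f1, hf1, hsat⟩ := (hsc _ (hx β).1).2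
    obtain ⟨f2, hf2⟩ := (hx γ).2.2 β hβγ
    obtain ⟨f3, hf3⟩ := hW γ
    obtain ⟨k⟩ : Nonempty (A ↪ K) := by
      rw [← Cardinal.le_def, hK]
      exact hA.le.trans hκ1
    obtain ⟨z₀, hz₀⟩ := (hx β).1.1
    let e : K → (x β).S := fun t => if h : ∃ c : A, k c = t then ⟨((h.choose : W.S) : X), hAβ _⟩ else ⟨z₀, hz₀⟩
    have he : ∀ c : A, ((e (k c) : (x β).S) : X) = ((c : W.S) : X) := by
      intro c
      have h : ∃ c' : A, k c' = k c := ⟨c, rfl⟩
      simp only [e, dif_pos h]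
      rw [k.injective h.choose_spec]
    have hfe : ∀ c : A, f (e (k c)) = (c : W.S) := by
      intro c
      apply Subtype.ext
      rw [hf, he]
    let Γ' : Set (L.Formula (K ⊕ Fin n)) := (fun φ : L.Formula (A ⊕ Fin n) => φ.relabel (Sum.map k id)) '' Γ
    have hreal : ∀ (φ : L.Formula (A ⊕ Fin n)) (a : Fin n → W.S),
        (φ.relabel (Sum.map k id) : L.Formula (K ⊕ Fin n)).Realize (Sum.elim (f ∘ e) a) ↔
        φ.Realize (Sum.elim (fun c : A => (c : W.S)) a) := by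
      intro φ a
      rw [Formula.realize_relabel]
      have : (Sum.elim (f ∘ e) a ∘ Sum.map k id : A ⊕ Fin n → W.S) = Sum.elim (fun c : A => (c : W.S)) a := by
        funext z
        cases z with
        | inl c => exact hfe c
        | inr i => rfl
      rw [this]
    obtain ⟨a, ha⟩ := hsat n e Γ' (by
      intro s hs
      refine finSat_down f e s ?_
      choose! g hg1 hg2 using fun φ (hφ : φ ∈ s) => hs φ hφ
      obtain ⟨a, ha⟩ := hΓ (s.image g) (by
        intro φ hφ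
        obtain ⟨ψ, hψ, rfl⟩ := Finset.mem_image.1 hφ
        exact hg1 ψ hψ)
      refine ⟨a, fun φ hφ => ?_⟩
      rw [← hg2 φ hφ]
      exact (hreal _ a).2 (ha _ (Finset.mem_image_of_mem _ hφ)))
    let h := f3.comp f2
    refine ⟨h ∘ a, fun φ hφ => ?_⟩
    have h1 := (h.map_formula _ _).2 (ha _ (Set.mem_image_of_mem _ hφ))
    rw [← hreal φ]
    have h2 : (h ∘ Sum.elim (f1 ∘ e) a : K ⊕ Fin n → W.S) = Sum.elim (f ∘ e) (h ∘ a) := by
      funext z
      cases z with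
      | inl t =>
        apply Subtype.ext
        change ((f3 (f2 (f1 (e t))) : W.S) : X) = ((f (e t) : W.S) : X)
        rw [hf3, hf2, hf1, hf]
      | inr i => rfl
    rw [h2] at h1
    exact h1

end Pool.Agent.helper19.IT
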